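import Mathlib
import Pool.Agent.T2h17.AH.Abs
import Pool.Agent.T2h17.CM.Fc

/-!
# Curves over number fields: special points near a given point

Let `V` be the variation of the first cohomology of an abelian scheme (or any variation of mixed Hodge
structure of rank `n` which comes from geometry) on a curve `X` over a number field, `x` a local
coordinate at a point `x₀` of `X`, with good reduction of the family at `x₀` or unipotent local monodromy.
The period matrix is `H(x) x^N C`, where the entries of `H` are linear combinations with algebraic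
coefficients of G-functions `h₁, …, h_r` with rational coefficients (the components of the restriction of
scalars from the function field of `X` to `ℚ(x)`), `N` is a rational nilpotent matrix and `C` is the
matrix of the periods of the fibre at `x₀` (`N = 0`), or of the limit at `x₀`. The points of `X` near
`x₀` are given by their coordinate `x = 1 / ξ`.

The special subvarieties of a Shimura variety of abelian type are defined by Hodge tensors, and all Hodge
tensors on abelian varieties are absolute Hodge (Deligne): a Hodge tensor of a fibre is rational in the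
rational coordinates, and in the coordinates of de Rham cohomology it is, up to a power of `2 π i`,
algebraic over a number field of bounded degree. We call rational tensors with this property algebraic (up
to a factor), and consider at a point of `X` the Lie algebra `𝔪` of all operators which preserve the lines
of all algebraic tensors of type `(a, b)` with `a, b ≤ a₀`. For abelian varieties and large `a₀` it is
contained in the Lie algebra of the Mumford–Tate group.

We prove that near `x₀` the codimension of `𝔪` in the Lie algebra `𝔤` of the monodromy group is at most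
`τ` (at most `τ + 1` if `N ≠ 0`) at ALL algebraic points of bounded degree and height bounded by a power of
the inverse of the distance, where `τ` is the transcendence degree of the field of the periods `C`; even
the sum of the codimensions over any set of points in a window `x = 1 / (ξ - G u)`, `1 ≤ u ≤ W`, is at most
`τ`, respectively `τ + 1`; and the sum is smaller than the dimension of the Lie algebra of the similitudes
of the polarisation which normalise `N`, uniformly in all polarised rational structures. (The result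
for filtrations in `MP_eeb1a4_ag.LimitingPeriods` bounds the codimension of `𝔪 + F⁰`; here the Hodge
filtration is not used.)

If the monodromy group is the full symplectic group (`n = 2 g`), then the fibres `A_j` of a window satisfy
`End (∏_{j ∉ R} A_j) = ∏_{j ∉ R} ℤ` outside a set `R` with `2 g |R| ≤ τ` (`≤ τ + 1` for `N ≠ 0`). For
example, if `x₀` is a point with complex multiplication and `g ≥ 2` then `τ ≤ g + 1 < 2 g`, therefore
`R` is empty: near a CM point of a Hodge generic curve in the moduli space of abelian varieties over a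
number field, no point of this kind has an endomorphism different from the integers, and no two points of
a window are isogenous. For an arbitrary point `x₀` and without any hypothesis on its periods at most
`g` fibres of a window are exceptional, uniformly in the polarised rational structure.

Proof. Relations of bounded degree over `ℚ` between the values of the G-functions and the logarithms
`log (1 - G u / ξ)` at all points of a window hold on the orbits of the group and for all values of the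
logarithms (values of G-functions at algebraic points of windows, projects of helper916 and others). An
ultraproduct of counterexamples gives derivations `D` of a field, with `D(H) = H Y` for arbitrary elements
`Y` of the Lie algebra of the monodromy group and with unknown `D(C) = Z C`, where `Z` is tangent to all
rational relations for `C`. Derivations annihilate algebraic numbers of bounded degree, and the derivative
of the equation `P^(⊗a) T P^(-⊗b) = κ w` for a tensor `T` shows that `P⁻¹ D(P)` preserves the line of `T`.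
-/

set_option autoImplicit false

open PowerSeries

namespace Pool.Agent.Results.MP_e573c6_ag.AlgebraicTensors

/-- an integer polynomial as a power series with rational coefficients -/
noncomputable def toQ (P : Polynomial ℤ) : PowerSeries ℚ :=
  ((P.map (Int.castRingHom ℚ) : Polynomial ℚ) : PowerSeries ℚ)

/-- the power series `P(u^e)` -/
noncomputable def atPow (e : ℕ) (P : Polynomial ℤ) : PowerSeries ℂ :=
  ((Polynomial.expand ℂ e (P.map (Int.castRingHom ℂ)) : Polynomial ℂ) : PowerSeries ℂ)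

/-- the matrices `G_s` over `ℤ[x]` with `T^s y^(s) = G_s y` for all solutions `y` of `T y' = A y` -/
noncomputable def iter {r : ℕ} (T : Polynomial ℤ) (A : Fin r → Fin r → Polynomial ℤ) :
    ℕ → Fin r → Fin r → Polynomial ℤ
  | 0 => fun i j => if i = j then 1 else 0
  | s + 1 => fun i j => T * Polynomial.derivative (iter T A s i j) + ∑ l, iter T A s i l * A l j -
      (s : Polynomial ℤ) * (Polynomial.derivative T * iter T A s i j)

/-- The system `T y' = A y` has a fundamental matrix of solutions of the form `u^(-M) ∑_n Φ_n(u) (log u)^n`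
with `u^e = x` and convergent power series `Φ_n`: the point `0` is an ordinary point or a regular
singularity with rational exponents. -/
def QuasiUnipotent {r : ℕ} (T : Polynomial ℤ) (A : Fin r → Fin r → Polynomial ℤ) : Prop :=
  ∃ (e M : ℕ) (K : ℝ) (Φ : Matrix (Fin r) (Fin r) (Polynomial (PowerSeries ℂ))), 1 ≤ e ∧ Φ.det ≠ 0 ∧
    (∀ i j n m, ‖coeff m ((Φ i j).coeff n)‖ ≤ K ^ (m + 1)) ∧
    ∀ i j n, atPow e T * (X * PowerSeries.derivative ℂ ((Φ i j).coeff n) +
        ((n : PowerSeries ℂ) + 1) * (Φ i j).coeff (n + 1) - (M : PowerSeries ℂ) * (Φ i j).coeff n) =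
      (e : PowerSeries ℂ) * X ^ e * ∑ l, atPow e (A i l) * (Φ l j).coeff n

/-- `h_1, ..., h_r` are G-functions with rational coefficients which solve the differential system
`T y' = A y`, with the conditions of Siegel and Galochkin, and the system is regular with rational
exponents at `0`. -/
structure GFamily {r : ℕ} (T : Polynomial ℤ) (A : Fin r → Fin r → Polynomial ℤ)
    (h : Fin r → PowerSeries ℚ) : Prop where
  /-- the denominator is not zero -/
  T_ne : T ≠ 0
  /-- the differential equations -/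
  ode : ∀ i, toQ T * PowerSeries.derivative ℚ (h i) = ∑ j, toQ (A i j) * h j
  /-- the coefficients have geometric growth -/
  size : ∃ C : ℝ, ∀ i m, |((coeff m (h i) : ℚ) : ℝ)| ≤ C ^ (m + 1)
  /-- the common denominators of the coefficients have geometric growth -/
  den : ∃ C : ℝ, ∀ m : ℕ, ∃ d : ℕ, 0 < d ∧ (d : ℝ) ≤ C ^ (m + 1) ∧
    ∀ i, ∀ j ≤ m, ∃ a : ℤ, (d : ℚ) * coeff j (h i) = a
  /-- Galochkin's condition: the common denominators of the matrices `G_s / s!` have geometric growth -/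
  galochkin : ∃ C : ℝ, ∀ m : ℕ, ∃ d : ℕ, 0 < d ∧ (d : ℝ) ≤ C ^ (m + 1) ∧ ∀ s ≤ m, ∀ i j,
    ∃ H : Polynomial ℤ, (d : Polynomial ℤ) * iter T A s i j = (s.factorial : Polynomial ℤ) * H
  /-- the local exponents at `0` are rational and the singularity is regular -/
  regular : QuasiUnipotent T A

/-- rational matrices as complex matrices -/
def toC {α γ : Type} (M : Matrix α γ ℚ) : Matrix α γ ℂ := M.map fun x : ℚ => (x : ℂ)

/-- the values of the power series `h_1, ..., h_r` at `z` -/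
noncomputable def val {r : ℕ} (h : Fin r → PowerSeries ℚ) (z : ℂ) : Fin r → ℂ :=
  fun i => ∑' k : ℕ, ((coeff k (h i) : ℚ) : ℂ) * z ^ k

/-- the matrix with the entries `∑ β y`: linear combinations of `y_1, ..., y_r` -/
def comb {r n : ℕ} (β : Fin n × Fin n → Fin r → ℂ) (y : Fin r → ℂ) : Matrix (Fin n) (Fin n) ℂ :=
  Matrix.of fun i j => ∑ s, β (i, j) s * y s

/-- the exponential `exp (s X)` of a nilpotent matrix -/
noncomputable def expN {n : ℕ} (X : Matrix (Fin n) (Fin n) ℂ) (s : ℂ) : Matrix (Fin n) (Fin n) ℂ :=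
  ∑ a ∈ Finset.range n, (s ^ a / (a.factorial : ℂ)) • X ^ a

/-- The family: the matrix `H(x)` has the entries `∑ β h(x)` with algebraic `β`, it is invertible near
`x = 0`, `x ≠ 0`, and the period matrix of the variation is `H(x) x^N C`. The set `𝒩` consists of
directions of one-parameter groups of the monodromy group, every direction with its action `X.1` on the
solutions `h` and its action `X.2` on the cohomology: both are nilpotent, they are compatible with `β`, all
polynomial relations `R(x, h(x)) = 0` over `ℚ[x]` hold near `x = 0` also for the vectors `h(x) g`, where `g`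
is a product of matrices `exp (s X.1)`, `X ∈ 𝒩`, and the span of the `X.2` is normalised by the local
monodromy `exp (2 π i N)` (it is the Lie algebra of the subgroup of the monodromy group which fixes
`log x`). -/
structure Family {r n : ℕ} (β : Fin n × Fin n → Fin r → ℂ) (h : Fin r → PowerSeries ℚ)
    (N : Matrix (Fin n) (Fin n) ℚ)
    (𝒩 : Set (Matrix (Fin r) (Fin r) ℂ × Matrix (Fin n) (Fin n) ℂ)) : Prop where
  alg : ∀ a s, IsAlgebraic ℚ (β a s)
  det : ∃ ρ : ℝ, 0 < ρ ∧ ∀ z : ℂ, z ≠ 0 → ‖z‖ < ρ → (comb β (val h z)).det ≠ 0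
  nil : N ^ n = 0
  dir : ∀ X ∈ 𝒩, X.1 ^ r = 0 ∧ X.2 ^ n = 0
  equiv : ∀ X ∈ 𝒩, ∀ y : Fin r → ℂ, comb β (Matrix.vecMul y X.1) = comb β y * X.2
  normal : ∀ X ∈ 𝒩, ∀ s : ℂ, expN (toC N) s * X.2 * expN (toC N) (-s) ∈
    Submodule.span ℂ (Prod.snd '' 𝒩)
  inv : ∃ ρ : ℝ, 0 < ρ ∧ ∀ R : MvPolynomial (Fin r) (Polynomial ℚ), MvPolynomial.aeval h R = 0 →
    ∀ z : ℂ, ‖z‖ < ρ → ∀ g ∈ Submonoid.closure {g | ∃ X ∈ 𝒩, ∃ s : ℂ, g = expN X.1 s},
      MvPolynomial.eval₂ (Polynomial.aeval z : Polynomial ℚ →ₐ[ℚ] ℂ).toRingHom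
        (Matrix.vecMul (val h z) g) R = 0

/-- The period matrix `H(x) x^N C = H(x) exp (N log x) C` at `x = 1 / ξ`, with the value `-l` of `log x`,
where `exp l = ξ`; the rows belong to a basis of de Rham cohomology, the columns to a rational basis. -/
noncomputable def per {r n : ℕ} (β : Fin n × Fin n → Fin r → ℂ) (h : Fin r → PowerSeries ℚ)
    (N : Matrix (Fin n) (Fin n) ℚ) (C : Matrix (Fin n) (Fin n) ℂ) (ξ l : ℂ) :
    Matrix (Fin n) (Fin n) ℂ := comb β (val h (1 / ξ)) * expN (toC N) (-l) * C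

/-- the tensor power of a matrix -/
def tens {α γ : Type} (a : ℕ) (A : Matrix α γ ℂ) : Matrix (Fin a → α) (Fin a → γ) ℂ :=
  Matrix.of fun i m => ∏ s, A (i s) (m s)

/-- the action `X ⊗ 1 ⊗ ⋯ ⊗ 1 + ⋯ + 1 ⊗ ⋯ ⊗ 1 ⊗ X` of a matrix on the tensor power -/
def dtens {ι : Type} [DecidableEq ι] (a : ℕ) (X : Matrix ι ι ℂ) : Matrix (Fin a → ι) (Fin a → ι) ℂ :=
  Matrix.of fun i m => ∑ s, ∏ s', if s' = s then X (i s') (m s') else (if i s' = m s' then (1 : ℂ) else 0)

/-- The rational tensor `T` of type `(a, b)`, a homomorphism from the `a`-th to the `b`-th tensor power in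
the rational coordinates, is algebraic in de Rham cohomology up to a factor: its coordinates
with respect to the basis of de Rham cohomology are proportional to elements of a number field of degree
at most `D`. (All Hodge tensors on an abelian variety, and all algebraic classes, have this property.) -/
def AlgebraicTensor {ι : Type} [Fintype ι] [DecidableEq ι] (D : ℕ) (P : Matrix ι ι ℂ) {a b : ℕ}
    (T : Matrix (Fin a → ι) (Fin b → ι) ℚ) : Prop :=
  ∃ (K : IntermediateField ℚ ℂ) (κ : ℂ), FiniteDimensional ℚ K ∧ Module.finrank ℚ K ≤ D ∧ κ ≠ 0 ∧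
    ∀ i m, ∃ w ∈ K, (tens a P * toC T * tens b P⁻¹) i m = κ * w

/-- the operator `X` preserves the line of the tensor `T` -/
def Preserves {ι : Type} [Fintype ι] [DecidableEq ι] {a b : ℕ} (X : Matrix ι ι ℂ)
    (T : Matrix (Fin a → ι) (Fin b → ι) ℚ) : Prop :=
  ∃ μ : ℂ, dtens a X * toC T - toC T * dtens b X = μ • toC T

theorem dtens_eq {ι : Type} [DecidableEq ι] (a : ℕ) (X : Matrix ι ι ℂ) :
    dtens a X = Pool.Agent.T2h17.AH.dpw a X := by
  ext i m
  rw [Pool.Agent.T2h17.AH.dpw, Matrix.sum_apply, dtens, Matrix.of_apply]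
  refine Finset.sum_congr rfl fun s _ => ?_
  rw [Pool.Agent.T2h17.AH.tp_apply]
  refine Finset.prod_congr rfl fun s' _ => ?_
  by_cases h : s' = s
  · subst h
    rw [if_pos rfl, Function.update_self]
  · rw [if_neg h, Function.update_of_ne h, Matrix.one_apply]

theorem preserves_iff {ι : Type} [Fintype ι] [DecidableEq ι] {a b : ℕ} {X : Matrix ι ι ℂ}
    {T : Matrix (Fin a → ι) (Fin b → ι) ℚ} : Preserves X T ↔ Pool.Agent.T2h17.AH.Pres T X := by
  unfold Preserves
  rw [dtens_eq, dtens_eq]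
  exact Iff.rfl

/-- the space of the operators which preserve the lines of all algebraic tensors of type `(a, b)` with
`a, b ≤ a₀` -/
def TensorLie {ι : Type} [Fintype ι] [DecidableEq ι] (D a₀ : ℕ) (P : Matrix ι ι ℂ) :
    Submodule ℂ (Matrix ι ι ℂ) where
  carrier := {X | ∀ a ≤ a₀, ∀ b ≤ a₀, ∀ T : Matrix (Fin a → ι) (Fin b → ι) ℚ,
    AlgebraicTensor D P T → Preserves X T}
  add_mem' := fun hX hY a ha b hb T hT => preserves_iff.2
    ((Pool.Agent.T2h17.AH.LieT D a₀ P).add_mem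
      (fun a ha b hb T hT => preserves_iff.1 (hX a ha b hb T hT))
      (fun a ha b hb T hT => preserves_iff.1 (hY a ha b hb T hT)) a ha b hb T hT)
  zero_mem' := fun a ha b hb T hT => preserves_iff.2
    ((Pool.Agent.T2h17.AH.LieT D a₀ P).zero_mem a ha b hb T hT)
  smul_mem' := fun c _ hX a ha b hb T hT => preserves_iff.2
    ((Pool.Agent.T2h17.AH.LieT D a₀ P).smul_mem c
      (fun a ha b hb T hT => preserves_iff.1 (hX a ha b hb T hT)) a ha b hb T hT)

theorem lie_eq {ι : Type} [Fintype ι] [DecidableEq ι] (D a₀ : ℕ) (P : Matrix ι ι ℂ) :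
    TensorLie D a₀ P = Pool.Agent.T2h17.AH.LieT D a₀ P := by
  ext X
  constructor
  · exact fun h a ha b hb T hT => preserves_iff.1 (h a ha b hb T hT)
  · exact fun h a ha b hb T hT => preserves_iff.2 (h a ha b hb T hT)

/-- the conjugation `Y ↦ C⁻¹ Y C` from the flat coordinates to the rational coordinates -/
noncomputable def conjBy {n : ℕ} (C : Matrix (Fin n) (Fin n) ℂ) :
    Matrix (Fin n) (Fin n) ℂ →ₗ[ℂ] Matrix (Fin n) (Fin n) ℂ where
  toFun := fun Y => C⁻¹ * Y * C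
  map_add' := fun Y Y' => by rw [Matrix.mul_add, Matrix.add_mul]
  map_smul' := fun c Y => by
    rw [Matrix.mul_smul, Matrix.smul_mul]
    rfl

/-- the Lie algebra of the monodromy group in the flat coordinates: the span of `N` and of the directions
in `𝒩` -/
def mon {r n : ℕ} (N : Matrix (Fin n) (Fin n) ℚ)
    (𝒩 : Set (Matrix (Fin r) (Fin r) ℂ × Matrix (Fin n) (Fin n) ℂ)) :
    Submodule ℂ (Matrix (Fin n) (Fin n) ℂ) := Submodule.span ℂ (Prod.snd '' 𝒩 ∪ {toC N})

/-- The total codimension of the fibres at the points `x = 1 / α_j` with the logarithms `l_j` of `α_j` is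
at most `ν`: the sum of the codimensions `dim 𝔤 - dim (𝔤 ∩ 𝔪_j)`, where `𝔤` is the Lie algebra of
the monodromy group and `𝔪_j` is the space of all operators which preserve the lines of the algebraic
tensors of the fibre. -/
def TotalCodim {n r k : ℕ} (D a₀ : ℕ) (β : Fin n × Fin n → Fin r → ℂ) (h : Fin r → PowerSeries ℚ)
    (N : Matrix (Fin n) (Fin n) ℚ)
    (𝒩 : Set (Matrix (Fin r) (Fin r) ℂ × Matrix (Fin n) (Fin n) ℂ)) (C : Matrix (Fin n) (Fin n) ℂ)
    (α l : Fin k → ℂ) (ν : ℕ) : Prop :=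
  ∑ j, (Module.finrank ℂ ((mon N 𝒩).map (conjBy C)) -
    Module.finrank ℂ ((mon N 𝒩).map (conjBy C) ⊓ TensorLie D a₀ (per β h N C (α j) (l j)) :
      Submodule ℂ _)) ≤ ν

/-- The monodromy group contains the symplectic group of a nondegenerate alternating form. -/
def Symplectic {r n : ℕ} (N : Matrix (Fin n) (Fin n) ℚ)
    (𝒩 : Set (Matrix (Fin r) (Fin r) ℂ × Matrix (Fin n) (Fin n) ℂ)) : Prop :=
  ∃ S : Matrix (Fin n) (Fin n) ℂ, S.transpose = -S ∧ S.det ≠ 0 ∧
    ∀ X : Matrix (Fin n) (Fin n) ℂ, X * S + S * X.transpose = 0 → X ∈ mon N 𝒩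

/-- the rational endomorphism `B` is algebraic in de Rham cohomology, over a number field of degree at most
`D` (endomorphisms of abelian varieties have this property) -/
def AlgebraicEnd {ι : Type} [Fintype ι] [DecidableEq ι] (D : ℕ) (P : Matrix ι ι ℂ) (B : Matrix ι ι ℚ) :
    Prop :=
  ∃ K : IntermediateField ℚ ℂ, FiniteDimensional ℚ K ∧ Module.finrank ℚ K ≤ D ∧
    ∀ i m, (P * toC B * P⁻¹) i m ∈ K

/-- Outside a set `R` of fibres with `n |R| ≤ ν` there are no exceptional endomorphisms: every algebraic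
endomorphism of the direct sum of the fibres which vanishes on the fibres in `R` and has no component in
them is a scalar on every fibre, and it has no component from one fibre to another. -/
def FewExceptional {n r k : ℕ} (D : ℕ) (β : Fin n × Fin n → Fin r → ℂ) (h : Fin r → PowerSeries ℚ)
    (N : Matrix (Fin n) (Fin n) ℚ) (C : Matrix (Fin n) (Fin n) ℂ) (α l : Fin k → ℂ) (ν : ℕ) : Prop :=
  ∃ R : Finset (Fin k), R.card * n ≤ ν ∧ ∀ B : Matrix (Fin n × Fin k) (Fin n × Fin k) ℚ,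
    (∀ a c, (a.2 ∈ R ∨ c.2 ∈ R) → B a c = 0) →
    AlgebraicEnd D (Matrix.blockDiagonal fun j => per β h N C (α j) (l j)) B →
    ∃ c : Fin k → ℚ, B = Matrix.blockDiagonal fun j => c j • 1

/-- the bound `ν` for the total codimension, and for the exceptional endomorphisms if the monodromy group
is symplectic -/
def Bound {n r k : ℕ} (D a₀ : ℕ) (β : Fin n × Fin n → Fin r → ℂ) (h : Fin r → PowerSeries ℚ)
    (N : Matrix (Fin n) (Fin n) ℚ)
    (𝒩 : Set (Matrix (Fin r) (Fin r) ℂ × Matrix (Fin n) (Fin n) ℂ)) (C : Matrix (Fin n) (Fin n) ℂ)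
    (α l : Fin k → ℂ) (ν : ℕ) : Prop :=
  TotalCodim D a₀ β h N 𝒩 C α l ν ∧ (Symplectic N 𝒩 → FewExceptional D β h N C α l ν)

/-- the matrices `Z` such that `Z C` is tangent at `C` to the variety of all rational equations of degree
at most `d` which hold for `C` -/
def Tangent {n : ℕ} (d : ℕ) (C : Matrix (Fin n) (Fin n) ℂ) :
    Submodule ℂ (Matrix (Fin n) (Fin n) ℂ) where
  carrier := {Z | ∀ f : MvPolynomial (Fin n × Fin n) ℚ, f.totalDegree ≤ d →
    MvPolynomial.aeval (fun a => C a.1 a.2) f = 0 →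
    ∑ a, MvPolynomial.aeval (fun a => C a.1 a.2) (MvPolynomial.pderiv a f) * (Z * C) a.1 a.2 = 0}
  add_mem' := fun hZ hZ' => (Pool.Agent.T2h17.TV.Tg d C).add_mem hZ hZ'
  zero_mem' := (Pool.Agent.T2h17.TV.Tg d C).zero_mem
  smul_mem' := fun c _ hZ => (Pool.Agent.T2h17.TV.Tg d C).smul_mem c hZ

/-- Transversality at the points `x = 1 / α_j` with the logarithms `l_j`: for all `Y_1, …, Y_k` in the Lie
algebra of the monodromy group there is a `Z` in the sum of the tangent space at `C` and of the line of `N`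
such that the operator `(Y_1 + Z, …, Y_k + Z)` on the direct sum of the fibres, in rational coordinates,
preserves the lines of ALL algebraic tensors of the direct sum of the fibres. -/
def Transversal {n r k : ℕ} (d D a₀ : ℕ) (β : Fin n × Fin n → Fin r → ℂ) (h : Fin r → PowerSeries ℚ)
    (N : Matrix (Fin n) (Fin n) ℚ)
    (𝒩 : Set (Matrix (Fin r) (Fin r) ℂ × Matrix (Fin n) (Fin n) ℂ)) (C : Matrix (Fin n) (Fin n) ℂ)
    (α l : Fin k → ℂ) : Prop :=
  ∀ Y : Fin k → Matrix (Fin n) (Fin n) ℂ, (∀ j, Y j ∈ mon N 𝒩) →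
    ∃ Z ∈ Tangent d C ⊔ Submodule.span ℂ {toC N},
      (Matrix.blockDiagonal fun j => conjBy C (Y j + Z)) ∈
        TensorLie D a₀ (Matrix.blockDiagonal fun j => per β h N C (α j) (l j))

/-- the Lie algebra of the infinitesimal similitudes of the form `S` which normalise the line of `N` -/
def Similitudes {n : ℕ} (N S : Matrix (Fin n) (Fin n) ℂ) : Submodule ℂ (Matrix (Fin n) (Fin n) ℂ) where
  carrier := {Z | (∃ μ : ℂ, Z * N - N * Z = μ • N) ∧ ∃ η : ℂ, Z * S + S * Z.transpose = η • S}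
  add_mem' := fun hZ hZ' => (Pool.Agent.T2h17.TV.Nrm N S).add_mem hZ hZ'
  zero_mem' := (Pool.Agent.T2h17.TV.Nrm N S).zero_mem
  smul_mem' := fun c _ hZ => (Pool.Agent.T2h17.TV.Nrm N S).smul_mem c hZ

/-- The base change `C` from the flat basis to a rational basis is a polarised rational structure: the
logarithm `2 π i C⁻¹ N C` of the local monodromy is rational and the form with the matrix `S` in the flat
basis is proportional to a rational form. -/
structure RationalStructure {n : ℕ} (S N : Matrix (Fin n) (Fin n) ℚ) (C : Matrix (Fin n) (Fin n) ℂ) :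
    Prop where
  det : C.det ≠ 0
  log : ∃ M : Matrix (Fin n) (Fin n) ℚ, C * toC M = (2 * (Real.pi : ℂ) * Complex.I) • (toC N * C)
  form : ∃ (P : Matrix (Fin n) (Fin n) ℚ) (κ : ℂ), κ ≠ 0 ∧ C * toC P * C.transpose = κ • toC S

/-- the transcendence degree of the field which is generated by the entries of `C` is at most `τ` -/
def TrdegLe {n : ℕ} (C : Matrix (Fin n) (Fin n) ℂ) (τ : ℕ) : Prop :=
  Algebra.trdeg ℚ (IntermediateField.adjoin ℚ (Set.range fun a : Fin n × Fin n => C a.1 a.2)) ≤ τ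

/-- the logarithms of the points `ξ - G u_j` near the logarithm `l` of `ξ` -/
noncomputable def logs {k : ℕ} (G : ℕ) (ξ l : ℂ) (u : Fin k → ℕ) : Fin k → ℂ := fun j =>
  l + Complex.log (1 - ((G * u j : ℕ) : ℂ) / ξ)

/-- `ξ` is a root of a nonzero integral polynomial of degree at most `g` with coefficients of size at
most `|ξ|^A` -/
def Height (g A : ℕ) (ξ : ℂ) : Prop :=
  ∃ p : Polynomial ℤ, p ≠ 0 ∧ p.natDegree ≤ g ∧ (∀ j, |(p.coeff j : ℝ)| ≤ ‖ξ‖ ^ A) ∧
    Polynomial.aeval ξ p = 0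

theorem iter_eq {r : ℕ} (T : Polynomial ℤ) (A : Fin r → Fin r → Polynomial ℤ) (s : ℕ) :
    iter T A s = Pool.Agent.Y120.GH.itm T A s := by
  induction s with
  | zero => rfl
  | succ s ih =>
    funext i j
    rw [iter, Pool.Agent.Y120.GH.itm, ih]

theorem qu_eq {r : ℕ} {T : Polynomial ℤ} {A : Fin r → Fin r → Polynomial ℤ} (h : QuasiUnipotent T A) :
    Pool.Agent.Y120.GH.QU0 T A := by
  obtain ⟨e, M, K, Φ, he, hdet, hc, heq⟩ := h
  have he0 : e ≠ 0 := by omega
  refine ⟨e, he0, M, K, Φ, hc, fun i j n => ?_, hdet⟩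
  have h1 := heq i j n
  simp only [atPow] at h1
  rw [Pool.Agent.Y120.GH.expand_poly he0]
  simp only [Pool.Agent.Y120.GH.expand_poly he0]
  exact h1

theorem gfam_eq {r : ℕ} {T : Polynomial ℤ} {A : Fin r → Fin r → Polynomial ℤ}
    {h : Fin r → PowerSeries ℚ} (hG : GFamily T A h) : Pool.Agent.Y916.Af.GFam T A h where
  hT := hG.T_ne
  hode := hG.ode
  hsize := hG.size
  hden := hG.den
  hgal := by
    obtain ⟨C, hC⟩ := hG.galochkin
    refine ⟨C, fun m => ?_⟩
    obtain ⟨d, h1, h2, h3⟩ := hC m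
    refine ⟨d, h1, h2, fun s hs i' j' => ?_⟩
    rw [← iter_eq]
    exact h3 s hs i' j'
  hqu := qu_eq hG.regular

theorem height_eq (g A : ℕ) (ξ : ℂ) : Height g A ξ ↔ Pool.Agent.Y916.Al.Ht g A ξ := Iff.rfl

/-- the bound for a fixed rational structure -/
theorem finrank_fixed {n : ℕ} {C : Matrix (Fin n) (Fin n) ℂ} (hC : C.det ≠ 0) {τ : ℕ}
    (hτ : TrdegLe C τ) (N : Matrix (Fin n) (Fin n) ℚ) : ∃ d : ℕ,
    Module.finrank ℂ (Pool.Agent.T2h17.TV.Tg d C ⊔ Submodule.span ℂ {toC N} : Submodule ℂ _) ≤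
      τ + if N = 0 then 0 else 1 := by
  obtain ⟨d, hd⟩ := Pool.Agent.T2h17.TV.finrank_Tg hC
  refine ⟨d, ?_⟩
  have h1 : Module.finrank ℂ (Pool.Agent.T2h17.TV.Tg d C) ≤ τ := by
    exact_mod_cast hd.trans hτ
  split_ifs with hN
  · subst hN
    have h2 : toC (0 : Matrix (Fin n) (Fin n) ℚ) = 0 := by
      ext i j
      simp [toC]
    rw [h2, Submodule.span_zero_singleton, sup_bot_eq]
    exact h1
  · refine (Submodule.finrank_add_le_finrank_add_finrank _ _).trans (Nat.add_le_add h1 ?_)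
    refine (finrank_span_le_card _).trans ?_
    simp

/-- the similitudes -/
theorem le_sim {n : ℕ} {S N : Matrix (Fin n) (Fin n) ℚ} {C : Matrix (Fin n) (Fin n) ℂ}
    (hN : toC N * toC S + toC S * (toC N).transpose = 0) (hC : RationalStructure S N C) :
    Pool.Agent.T2h17.TV.Tg 2 C ⊔ Submodule.span ℂ {toC N} ≤ Similitudes (toC N) (toC S) := by
  obtain ⟨hdet, ⟨M, hM⟩, P, κ, hκ, hP⟩ := hC
  refine sup_le ?_ ?_
  · intro Z hZ
    exact Pool.Agent.T2h17.TV.Tg_le_Nrm hdet Complex.two_pi_I_ne_zero hM hκ hP hZ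
  · rw [Submodule.span_le, Set.singleton_subset_iff]
    exact ⟨⟨0, by rw [sub_self, zero_smul]⟩, 0, by rw [hN, zero_smul]⟩

theorem one_sim {n : ℕ} (N S : Matrix (Fin n) (Fin n) ℂ) :
    (1 : Matrix (Fin n) (Fin n) ℂ) ∈ Similitudes N S := by
  refine ⟨⟨0, by rw [Matrix.one_mul, Matrix.mul_one, sub_self, zero_smul]⟩, 2, ?_⟩
  rw [Matrix.one_mul, Matrix.transpose_one, Matrix.mul_one, two_smul]

/-- the transversality theorem in windows -/
theorem windows {n r : ℕ} {T : Polynomial ℤ} {A : Fin r → Fin r → Polynomial ℤ}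
    {h : Fin r → PowerSeries ℚ} (hG : GFamily T A h) {β : Fin n × Fin n → Fin r → ℂ}
    {N : Matrix (Fin n) (Fin n) ℚ}
    {𝒩 : Set (Matrix (Fin r) (Fin r) ℂ × Matrix (Fin n) (Fin n) ℂ)} (hM : Family β h N 𝒩) :
    ∃ G0 : ℕ, 1 ≤ G0 ∧ ∀ G : ℕ, G0 ≤ G → ∀ k g A₀ d D a₀ : ℕ, ∃ E : ℕ, ∀ (W : ℕ) (ξ l : ℂ),
      ((W : ℝ) + 2) ^ E ≤ ‖ξ‖ → Height g A₀ ξ → ∀ C : Matrix (Fin n) (Fin n) ℂ, C.det ≠ 0 →
      ∀ u : Fin k → ℕ, Function.Injective u → (∀ j, 1 ≤ u j ∧ u j ≤ W) →
      (∀ j, (comb β (val h (1 / (ξ - ((G * u j : ℕ) : ℂ))))).det ≠ 0) ∧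
      Pool.Agent.T2h17.AH.Trans3 β N 𝒩 d a₀ D C
        (fun j => val h (1 / (ξ - ((G * u j : ℕ) : ℂ)))) l (Pool.Agent.T2h17.TV.lw G ξ u) := by
  obtain ⟨ρ₁, hρ₁, hinv⟩ := hM.inv
  obtain ⟨ρ₂, hρ₂, hdet⟩ := hM.det
  set ρ' : ℝ := min ρ₁ ρ₂ with hρ'
  have hρ'0 : 0 < ρ' := lt_min hρ₁ hρ₂
  have hρ'2 : ρ' ≤ ρ₁ := min_le_left _ _
  have hρ'3 : ρ' ≤ ρ₂ := min_le_right _ _
  have hcl : Submonoid.closure {g | ∃ X ∈ 𝒩, ∃ s : ℂ, g = expN X.1 s} =
      Pool.Agent.T2h17.HW.Grp (Prod.fst '' 𝒩) := by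
    unfold Pool.Agent.T2h17.HW.Grp
    congr 1
    ext g
    constructor
    · rintro ⟨X, hX, s, rfl⟩
      exact ⟨X.1, ⟨X, hX, rfl⟩, s, rfl⟩
    · rintro ⟨_, ⟨X, hX, rfl⟩, s, rfl⟩
      exact ⟨X, hX, s, rfl⟩
  have hinv' : Pool.Agent.T2h17.AH.InvV h (Prod.fst '' 𝒩) ρ' := fun R hR z hz g hg =>
    hinv R hR z (hz.trans_le hρ'2) g (by rw [hcl]; exact hg)
  have hnr := Pool.Agent.Y916.Af.nrh_of_gfam (gfam_eq hG)
  obtain ⟨G0, hG0, h1⟩ := Pool.Agent.T2h17.AH.win_relv hnr hρ'0 hinv'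
  refine ⟨G0, hG0, fun G hGG k g A₀ d D a₀ => ?_⟩
  obtain ⟨e, he⟩ := Pool.Agent.T2h17.AH.trans3 k hM.alg hM.nil (fun X hX => (hM.dir X hX).1) hM.equiv
    (by
      rintro _ ⟨X, hX, rfl⟩ s
      exact hM.normal X hX s) d a₀ D
  obtain ⟨E, hE⟩ := h1 G hGG k g A₀ e
  refine ⟨E, fun W ξ l hξ hht C hC u hu hub => ?_⟩
  obtain ⟨hnear, h2⟩ := hE W ξ hξ
  have h3 : ∀ j, (comb β (val h (1 / (ξ - ((G * u j : ℕ) : ℂ))))).det ≠ 0 := fun j =>
    hdet _ (one_div_ne_zero (hnear (u j) (hub j).2).2) ((hnear (u j) (hub j).2).1.trans_le hρ'3)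
  exact ⟨h3, he C _ l _ hC h3 (h2 hht u hu hub)⟩

/-- the determinant of the period matrices -/
theorem per_det {n r k : ℕ} {β : Fin n × Fin n → Fin r → ℂ} {N : Matrix (Fin n) (Fin n) ℚ}
    (hN : N ^ n = 0) {C : Matrix (Fin n) (Fin n) ℂ} (hC : C.det ≠ 0) {v : Fin k → Fin r → ℂ}
    (hv : ∀ j, (comb β (v j)).det ≠ 0) (l : Fin k → ℂ) (j : Fin k) :
    (Pool.Agent.T2h17.AH.bt β (v j) * Pool.Agent.T2h17.HW.En (Pool.Agent.T2h17.HW.tc N) (-(l j)) *
      C).det ≠ 0 := by
  rw [Matrix.det_mul, Matrix.det_mul]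
  exact mul_ne_zero (mul_ne_zero (hv j) (Pool.Agent.T2h17.AH.det_En hN _)) hC

/-- the bounds, from transversality -/
theorem bound_of {n r k : ℕ} {D a₀ d ν : ℕ} (ha : 1 ≤ a₀) {β : Fin n × Fin n → Fin r → ℂ}
    {h : Fin r → PowerSeries ℚ} {N : Matrix (Fin n) (Fin n) ℚ} (hN : N ^ n = 0)
    {𝒩 : Set (Matrix (Fin r) (Fin r) ℂ × Matrix (Fin n) (Fin n) ℂ)}
    {C : Matrix (Fin n) (Fin n) ℂ} (hC : C.det ≠ 0) {α : Fin k → ℂ} {l : ℂ} {t : Fin k → ℂ}
    (hv : ∀ j, (comb β (val h (1 / α j))).det ≠ 0)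
    (hT : Pool.Agent.T2h17.AH.Trans3 β N 𝒩 d a₀ D C (fun j => val h (1 / α j)) l t)
    {𝔗 : Submodule ℂ (Matrix (Fin n) (Fin n) ℂ)}
    (h𝔗 : Pool.Agent.T2h17.TV.Tg d C ⊔ Submodule.span ℂ {toC N} ≤ 𝔗)
    (hν : Module.finrank ℂ 𝔗 ≤ ν ∨
      (1 ≤ n ∧ (1 : Matrix (Fin n) (Fin n) ℂ) ∈ 𝔗 ∧ Module.finrank ℂ 𝔗 ≤ ν + 1)) :
    Bound D a₀ β h N 𝒩 C α (fun j => l + t j) ν := by
  have hP := per_det hN hC hv fun j => l + t j
  refine ⟨?_, ?_⟩
  · refine Pool.Agent.T2h17.AH.bound_abs hC (conjBy C) (fun _ => rfl)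
      (fun j => TensorLie D a₀ (per β h N C (α j) (l + t j))) (fun Y hY => ?_) (fun j => ?_) hν
    · obtain ⟨Z, hZ, h1⟩ := hT Y hY
      refine ⟨Z, h𝔗 hZ, fun j => ?_⟩
      have h2 := Pool.Agent.T2h17.AH.lie_comp hP h1 j
      rw [lie_eq]
      exact h2
    · rw [lie_eq]
      exact Pool.Agent.T2h17.AH.one_mem_LieT _ _ _
  · rintro ⟨S, hS, hd, hsp⟩
    obtain ⟨R, hR, hgood⟩ := Pool.Agent.T2h17.AH.exceptional ha hC hT hP h𝔗 hS hd
      (fun X hX => hsp X hX) hν
    refine ⟨R, hR, fun B hB halg => hgood B ?_ halg⟩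
    intro a c hac
    refine hB a c ?_
    rcases hac with h | h
    · left
      rwa [Finset.mem_compl, not_not] at h
    · right
      rwa [Finset.mem_compl, not_not] at h

/-- a point is a window with one point -/
theorem point {n r : ℕ} {β : Fin n × Fin n → Fin r → ℂ} {h : Fin r → PowerSeries ℚ}
    {N : Matrix (Fin n) (Fin n) ℚ}
    {𝒩 : Set (Matrix (Fin r) (Fin r) ℂ × Matrix (Fin n) (Fin n) ℂ)} {d D a₀ G0 E g A₀ : ℕ}
    (hE : ∀ (W : ℕ) (ξ l : ℂ),
      ((W : ℝ) + 2) ^ E ≤ ‖ξ‖ → Height g (A₀ + 1) ξ → ∀ C : Matrix (Fin n) (Fin n) ℂ, C.det ≠ 0 →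
      ∀ u : Fin 1 → ℕ, Function.Injective u → (∀ j, 1 ≤ u j ∧ u j ≤ W) →
      (∀ j, (comb β (val h (1 / (ξ - ((G0 * u j : ℕ) : ℂ))))).det ≠ 0) ∧
      Pool.Agent.T2h17.AH.Trans3 β N 𝒩 d a₀ D C
        (fun j => val h (1 / (ξ - ((G0 * u j : ℕ) : ℂ)))) l (Pool.Agent.T2h17.TV.lw G0 ξ u)) :
    ∃ E' : ℕ, ∀ ξ l : ℂ, (E' : ℝ) ≤ ‖ξ‖ → Height g A₀ ξ → ∀ C : Matrix (Fin n) (Fin n) ℂ, C.det ≠ 0 →
      (comb β (val h (1 / ξ))).det ≠ 0 ∧
      Pool.Agent.T2h17.AH.Trans3 (k := 1) β N 𝒩 d a₀ D C (fun _ => val h (1 / ξ)) l (fun _ => 0) := by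
  obtain ⟨B, hB⟩ := Pool.Agent.Y119.HA.ht_add g A₀ G0
  obtain ⟨N₁, hN₁⟩ := exists_nat_ge B
  refine ⟨N₁ + 3 ^ E + G0 + 2, fun ξ l hξ hHt C hC => ?_⟩
  push_cast at hξ
  have hG0R : (0 : ℝ) ≤ G0 := Nat.cast_nonneg G0
  have hN0R : (0 : ℝ) ≤ N₁ := Nat.cast_nonneg N₁
  have h3 : (0 : ℝ) ≤ 3 ^ E := by positivity
  have hHt' := hB ξ (by linarith) hHt
  have hbig : (((1 : ℕ) : ℝ) + 2) ^ E ≤ ‖ξ + G0‖ := by
    have h1 := norm_sub_norm_le ξ (-(G0 : ℂ))
    rw [norm_neg, Complex.norm_natCast, sub_neg_eq_add] at h1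
    have h4 : (((1 : ℕ) : ℝ) + 2) ^ E = 3 ^ E := by norm_num
    rw [h4]
    linarith
  obtain ⟨h0, h1⟩ := hE 1 (ξ + G0) (l - Complex.log (1 - ((G0 * 1 : ℕ) : ℂ) / (ξ + G0))) hbig hHt' C hC
    (fun _ => 1) (fun i j _ => Subsingleton.elim i j) (fun _ => ⟨le_rfl, le_rfl⟩)
  have h2 : ξ + (G0 : ℂ) - ((G0 * 1 : ℕ) : ℂ) = ξ := by
    push_cast
    ring
  simp only [h2] at h0 h1
  refine ⟨h0 0, fun Y hY => ?_⟩
  have h4 : ∀ j : Fin 1, l - Complex.log (1 - ((G0 * 1 : ℕ) : ℂ) / (ξ + G0)) +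
      Pool.Agent.T2h17.TV.lw G0 (ξ + (G0 : ℂ)) (fun _ : Fin 1 => 1) j = l + 0 := by
    intro j
    show l - Complex.log (1 - ((G0 * 1 : ℕ) : ℂ) / (ξ + G0)) +
      Complex.log (1 - ((G0 * 1 : ℕ) : ℂ) / (ξ + G0)) = l + 0
    ring
  have h5 := h1 Y hY
  simp only [h4] at h5
  exact h5

/-- Let `h_1, …, h_r` be G-functions with rational coefficients, `H = ∑ β h` with algebraic `β`, and let
`N` be the logarithm of the local monodromy and `𝒩` the directions of the one-parameter subgroups of the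
monodromy group. Let `D` and `a₀ ≥ 1` be bounds for the degrees of number fields and tensors.
(1) Windows, with a sufficiently large `G`: all algebraic `ξ` of degree `≤ g` and height `≤ |ξ|^A₀` with
`(W + 2)^E ≤ |ξ|`, all different `u_1, …, u_k` in `{1, …, W}`. (a) Transversality holds at the points
`x = 1 / (ξ - G u_j)` for all invertible `C`. (b) For a fixed `C` with transcendence degree at most `τ`
these points satisfy the bounds with `ν = τ + 1`, and with `ν = τ` if `N = 0`. (c) They satisfy the bounds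
with the dimension, minus one, of the Lie algebra of similitudes which normalise `N`, for all polarised
rational structures `C`.
(2) Points: all algebraic `ξ` of degree `≤ g` and height `≤ |ξ|^A₀` with `|ξ| ≥ E` and all logarithms `l`
of `ξ`: the same bounds (b) and (c) at the point `x = 1 / ξ`.
(3) For all `g`, `R` and `C` there are only finitely many algebraic integers `ξ` of degree `≤ g` such that
the bound (b) fails at `1 / ξ'` for every conjugate `ξ'` of absolute value greater than `R`. -/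
theorem result {n r : ℕ} (T : Polynomial ℤ) (A : Fin r → Fin r → Polynomial ℤ)
    (h : Fin r → PowerSeries ℚ) (hG : GFamily T A h) (β : Fin n × Fin n → Fin r → ℂ)
    (N : Matrix (Fin n) (Fin n) ℚ)
    (𝒩 : Set (Matrix (Fin r) (Fin r) ℂ × Matrix (Fin n) (Fin n) ℂ)) (hM : Family β h N 𝒩)
    (D a₀ : ℕ) (ha : 1 ≤ a₀) :
    (∃ G0 : ℕ, ∀ G : ℕ, G0 ≤ G → ∀ k g A₀ : ℕ,
      (∀ d : ℕ, ∃ E : ℕ, ∀ (W : ℕ) (ξ l : ℂ), ((W : ℝ) + 2) ^ E ≤ ‖ξ‖ → Height g A₀ ξ →
        Complex.exp l = ξ → ∀ C : Matrix (Fin n) (Fin n) ℂ, C.det ≠ 0 →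
        ∀ u : Fin k → ℕ, Function.Injective u → (∀ j, 1 ≤ u j ∧ u j ≤ W) →
        Transversal d D a₀ β h N 𝒩 C (fun j => ξ - ((G * u j : ℕ) : ℂ)) (logs G ξ l u)) ∧
      (∀ (C : Matrix (Fin n) (Fin n) ℂ) (τ : ℕ), C.det ≠ 0 → TrdegLe C τ →
        ∃ E : ℕ, ∀ (W : ℕ) (ξ l : ℂ), ((W : ℝ) + 2) ^ E ≤ ‖ξ‖ → Height g A₀ ξ →
        Complex.exp l = ξ → ∀ u : Fin k → ℕ, Function.Injective u → (∀ j, 1 ≤ u j ∧ u j ≤ W) →
        Bound D a₀ β h N 𝒩 C (fun j => ξ - ((G * u j : ℕ) : ℂ)) (logs G ξ l u)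
          (τ + if N = 0 then 0 else 1)) ∧
      (1 ≤ n → ∀ S : Matrix (Fin n) (Fin n) ℚ,
        toC N * toC S + toC S * (toC N).transpose = 0 →
        ∃ E : ℕ, ∀ (W : ℕ) (ξ l : ℂ), ((W : ℝ) + 2) ^ E ≤ ‖ξ‖ → Height g A₀ ξ →
        Complex.exp l = ξ → ∀ C : Matrix (Fin n) (Fin n) ℂ, RationalStructure S N C →
        ∀ u : Fin k → ℕ, Function.Injective u → (∀ j, 1 ≤ u j ∧ u j ≤ W) →
        Bound D a₀ β h N 𝒩 C (fun j => ξ - ((G * u j : ℕ) : ℂ)) (logs G ξ l u)
          (Module.finrank ℂ (Similitudes (toC N) (toC S)) - 1))) ∧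
    (∀ g A₀ : ℕ,
      (∀ (C : Matrix (Fin n) (Fin n) ℂ) (τ : ℕ), C.det ≠ 0 → TrdegLe C τ →
        ∃ E : ℕ, ∀ ξ l : ℂ, (E : ℝ) ≤ ‖ξ‖ → Height g A₀ ξ → Complex.exp l = ξ →
        Bound (k := 1) D a₀ β h N 𝒩 C (fun _ => ξ) (fun _ => l) (τ + if N = 0 then 0 else 1)) ∧
      (1 ≤ n → ∀ S : Matrix (Fin n) (Fin n) ℚ,
        toC N * toC S + toC S * (toC N).transpose = 0 →
        ∃ E : ℕ, ∀ ξ l : ℂ, (E : ℝ) ≤ ‖ξ‖ → Height g A₀ ξ → Complex.exp l = ξ →
        ∀ C : Matrix (Fin n) (Fin n) ℂ, RationalStructure S N C →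
        Bound (k := 1) D a₀ β h N 𝒩 C (fun _ => ξ) (fun _ => l)
          (Module.finrank ℂ (Similitudes (toC N) (toC S)) - 1))) ∧
    (∀ (g : ℕ) (R : ℝ) (C : Matrix (Fin n) (Fin n) ℂ) (τ : ℕ), C.det ≠ 0 → TrdegLe C τ →
      {ξ : ℂ | IsIntegral ℤ ξ ∧ (minpoly ℚ ξ).natDegree ≤ g ∧
        ∀ ξ' : ℂ, Polynomial.aeval ξ' (minpoly ℚ ξ) = 0 → R < ‖ξ'‖ →
        ∃ l : ℂ, Complex.exp l = ξ' ∧
          ¬ Bound (k := 1) D a₀ β h N 𝒩 C (fun _ => ξ') (fun _ => l)
            (τ + if N = 0 then 0 else 1)}.Finite) := by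
  obtain ⟨G0, hG0, hwin⟩ := windows hG hM
  have hN := hM.nil
  -- points
  have hpt : ∀ g A₀ d : ℕ, ∃ E' : ℕ, ∀ ξ l : ℂ, (E' : ℝ) ≤ ‖ξ‖ → Height g A₀ ξ →
      ∀ C : Matrix (Fin n) (Fin n) ℂ, C.det ≠ 0 → (comb β (val h (1 / ξ))).det ≠ 0 ∧
      Pool.Agent.T2h17.AH.Trans3 (k := 1) β N 𝒩 d a₀ D C (fun _ => val h (1 / ξ)) l (fun _ => 0) := by
    intro g A₀ d
    obtain ⟨E, hE⟩ := hwin G0 le_rfl 1 g (A₀ + 1) d D a₀
    exact point (G0 := G0) (E := E) hE
  have hfix : ∀ (g A₀ : ℕ) (C : Matrix (Fin n) (Fin n) ℂ) (τ : ℕ), C.det ≠ 0 → TrdegLe C τ →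
      ∃ E : ℕ, ∀ ξ l : ℂ, (E : ℝ) ≤ ‖ξ‖ → Height g A₀ ξ →
      Bound (k := 1) D a₀ β h N 𝒩 C (fun _ => ξ) (fun _ => l) (τ + if N = 0 then 0 else 1) := by
    intro g A₀ C τ hC hτ
    obtain ⟨d, hd⟩ := finrank_fixed hC hτ N
    obtain ⟨E, hE⟩ := hpt g A₀ d
    refine ⟨E, fun ξ l hξ hht => ?_⟩
    obtain ⟨h0, h1⟩ := hE ξ l hξ hht C hC
    have h2 := bound_of (h := h) (α := fun _ : Fin 1 => ξ) ha hN hC (fun _ => h0) h1 le_rfl (Or.inl hd)
    simp only [add_zero] at h2
    exact h2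
  refine ⟨⟨G0, fun G hGG k g A₀ => ⟨?_, ?_, ?_⟩⟩, fun g A₀ => ⟨?_, ?_⟩, ?_⟩
  · intro d
    obtain ⟨E, hE⟩ := hwin G hGG k g A₀ d D a₀
    refine ⟨E, fun W ξ l hξ hht _ C hC u hu hub Y hY => ?_⟩
    obtain ⟨Z, hZ, h1⟩ := (hE W ξ l hξ hht C hC u hu hub).2 Y hY
    refine ⟨Z, hZ, ?_⟩
    rw [lie_eq]
    exact h1
  · intro C τ hC hτ
    obtain ⟨d, hd⟩ := finrank_fixed hC hτ N
    obtain ⟨E, hE⟩ := hwin G hGG k g A₀ d D a₀
    refine ⟨E, fun W ξ l hξ hht _ u hu hub => ?_⟩
    obtain ⟨h0, h1⟩ := hE W ξ l hξ hht C hC u hu hub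
    exact bound_of ha hN hC h0 h1 le_rfl (Or.inl hd)
  · intro hn S hS
    obtain ⟨E, hE⟩ := hwin G hGG k g A₀ 2 D a₀
    refine ⟨E, fun W ξ l hξ hht _ C hC u hu hub => ?_⟩
    obtain ⟨h0, h1⟩ := hE W ξ l hξ hht C hC.det u hu hub
    exact bound_of ha hN hC.det h0 h1 (le_sim hS hC) (Or.inr ⟨hn, one_sim _ _, by omega⟩)
  · intro C τ hC hτ
    obtain ⟨E, hE⟩ := hfix g A₀ C τ hC hτ
    exact ⟨E, fun ξ l hξ hht _ => hE ξ l hξ hht⟩
  · intro hn S hS
    obtain ⟨E, hE⟩ := hpt g A₀ 2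
    refine ⟨E, fun ξ l hξ hht _ C hC => ?_⟩
    obtain ⟨h0, h1⟩ := hE ξ l hξ hht C hC.det
    have h2 := bound_of (h := h) (α := fun _ : Fin 1 => ξ) ha hN hC.det (fun _ => h0) h1 (le_sim hS hC)
      (ν := Module.finrank ℂ (Similitudes (toC N) (toC S)) - 1) (Or.inr ⟨hn, one_sim _ _, by omega⟩)
    simp only [add_zero] at h2
    exact h2
  · intro g R C τ hC hτ
    obtain ⟨E, hE⟩ := hfix g (2 * g) C τ hC hτ
    refine Set.Finite.subset (Pool.Agent.T2h17.CM.finite_conj g E R (fun ξ => ∀ l : ℂ,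
      Bound (k := 1) D a₀ β h N 𝒩 C (fun _ => ξ) (fun _ => l) (τ + if N = 0 then 0 else 1))
      fun ξ hξ hht l => hE ξ l hξ hht) ?_
    rintro ξ ⟨hint, hdeg, hall⟩
    refine ⟨hint, hdeg, fun ξ' hr h1' hP => ?_⟩
    obtain ⟨l, -, hl⟩ := hall ξ' hr h1'
    exact hl (hP l)

end Pool.Agent.Results.MP_e573c6_ag.AlgebraicTensors
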