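import Mathlib
import Pool.Agent.T2h17.GH.All
import Pool.Agent.T2h17.GH.Ten
import Pool.Agent.T2h17.GH.Cnt

/-!
# Large Galois orbits of the special points of curves in Shimura varieties near a given point

Let `V` be the variation of the first cohomology of an abelian scheme (or any variation of mixed Hodge
structure of rank `n` which comes from geometry) on a curve `X` over a number field, `x` a local
coordinate at a point `x₀` of `X`, with good reduction of the family at `x₀` or unipotent local monodromy.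
The period matrix is `H(x) x^N C`, where the entries of `H` are linear combinations with algebraic
coefficients of G-functions `h₁, …, h_r` with rational coefficients (the components of the restriction of
scalars from the function field of `X` to `ℚ(x)`), `N` is a rational nilpotent matrix and `C` is the
matrix of the periods of the fibre at `x₀` (`N = 0`), or of the limit at `x₀`. The points of `X` near
`x₀` are given by their coordinate `x = 1 / ξ`.

The special subvarieties of a Shimura variety of abelian type are defined by Hodge tensors, and all Hodge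
tensors on abelian varieties are absolute Hodge (Deligne): a Hodge tensor of the fibre at a point of
degree `D` is rational in the rational coordinates, and in the coordinates of de Rham cohomology it is, up
to a power of `2 π i`, algebraic over a number field of degree at most `(D + 2)^c₀`. We call rational
tensors with this property algebraic (up to a factor), and consider at a point of `X` the Lie algebra `𝔪`
of all operators which preserve the lines of all algebraic tensors of type `(a, b)` with `a, b ≤ a₀`. For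
abelian varieties and large `a₀` it is contained in the Lie algebra of the Mumford–Tate group.

The Zilber–Pink conjecture for curves has been reduced in many cases to lower bounds for the Galois orbits
of the special points (Habegger–Pila, Daw–Orr): the degree should be at least a power of the height. We
prove such a bound near the given point `x₀`: there is a constant `c` such that for all `D`, if `ξ` is
algebraic of degree `≤ D` and of height `≤ |ξ|^D` and the codimension of `𝔪` in the Lie algebra `𝔤` of the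
monodromy group at `x = 1 / ξ` is greater than `τ` (greater than `τ + 1` if `N ≠ 0`), then
`log |ξ| ≤ (D + 2)^c`. Here `τ` is the transcendence degree of the field of the periods `C`. The same is true
if the codimension is at least the dimension of the Lie algebra of the similitudes of the polarisation which
normalise `N`, uniformly in all polarised rational structures. If the monodromy group is the full
symplectic group (`n = 2 g`) and the bound (`τ` or `τ + 1`) is smaller than `2 g`, then all points `x` whose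
fibre has an endomorphism different from the integers satisfy this inequality. For example, if `x₀` is a
point with complex multiplication and `g ≥ 2` then `τ ≤ g + 1 < 2 g`.

These results for bounded `D` are in `AlgebraicTensors`.

Proof. Relations of bounded degree over a number field of degree `≤ (D + 2)^c` between the values of the
G-functions at a point of degree `≤ D` with `log |ξ| ≥ (D + 2)^t` hold on the orbits of the group. An
ultraproduct of counterexamples gives derivations `D` of the ultrapower of `ℂ` which annihilate all germs of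
sequences of algebraic numbers of polynomially bounded degree, with `D(H) = H Y` for arbitrary elements `Y`
of the Lie algebra of the monodromy group and with unknown `D(C) = Z C`, where `Z` is tangent to all
rational relations for `C`. The derivative of the equation `P^(⊗a) T P^(-⊗b) = κ w` for a tensor `T` shows
that `P⁻¹ D(P)` preserves the line of `T`.
-/

set_option autoImplicit false

open PowerSeries

namespace Pool.Agent.Results.MP_e573c6_ag.GrowingDegree

/-- an integer polynomial as a power series with rational coefficients -/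
noncomputable def toQ (P : Polynomial ℤ) : PowerSeries ℚ :=
  ((P.map (Int.castRingHom ℚ) : Polynomial ℚ) : PowerSeries ℚ)

/-- the matrices `G_s` over `ℤ[x]` with `T^s y^(s) = G_s y` for all solutions `y` of `T y' = A y` -/
noncomputable def iter {r : ℕ} (T : Polynomial ℤ) (A : Fin r → Fin r → Polynomial ℤ) :
    ℕ → Fin r → Fin r → Polynomial ℤ
  | 0 => fun i j => if i = j then 1 else 0
  | s + 1 => fun i j => T * Polynomial.derivative (iter T A s i j) + ∑ l, iter T A s i l * A l j -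
      (s : Polynomial ℤ) * (Polynomial.derivative T * iter T A s i j)

/-- `h_1, ..., h_r` are G-functions with rational coefficients which solve the differential system
`T y' = A y`, with the conditions of Siegel and Galochkin. -/
structure GFamily {r : ℕ} (T : Polynomial ℤ) (A : Fin r → Fin r → Polynomial ℤ)
    (h : Fin r → PowerSeries ℚ) : Prop where
  /-- the denominator is not zero -/
  T_ne : T ≠ 0
  /-- the differential equations -/
  ode : ∀ i, toQ T * PowerSeries.derivative ℚ (h i) = ∑ j, toQ (A i j) * h j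
  /-- the coefficients have geometric growth -/
  size : ∃ C : ℝ, ∀ i m, |((coeff m (h i) : ℚ) : ℝ)| ≤ C ^ (m + 1)
  /-- the common denominators of the coefficients have geometric growth -/
  den : ∃ C : ℝ, ∀ m : ℕ, ∃ d : ℕ, 0 < d ∧ (d : ℝ) ≤ C ^ (m + 1) ∧
    ∀ i, ∀ j ≤ m, ∃ a : ℤ, (d : ℚ) * coeff j (h i) = a
  /-- Galochkin's condition: the common denominators of the matrices `G_s / s!` have geometric growth -/
  galochkin : ∃ C : ℝ, ∀ m : ℕ, ∃ d : ℕ, 0 < d ∧ (d : ℝ) ≤ C ^ (m + 1) ∧ ∀ s ≤ m, ∀ i j,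
    ∃ H : Polynomial ℤ, (d : Polynomial ℤ) * iter T A s i j = (s.factorial : Polynomial ℤ) * H

/-- rational matrices as complex matrices -/
def toC {α γ : Type} (M : Matrix α γ ℚ) : Matrix α γ ℂ := M.map fun x : ℚ => (x : ℂ)

/-- the values of the power series `h_1, ..., h_r` at `z` -/
noncomputable def val {r : ℕ} (h : Fin r → PowerSeries ℚ) (z : ℂ) : Fin r → ℂ :=
  fun i => ∑' k : ℕ, ((coeff k (h i) : ℚ) : ℂ) * z ^ k

/-- the matrix with the entries `∑ β y`: linear combinations of `y_1, ..., y_r` -/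
def comb {r n : ℕ} (β : Fin n × Fin n → Fin r → ℂ) (y : Fin r → ℂ) : Matrix (Fin n) (Fin n) ℂ :=
  Matrix.of fun i j => ∑ s, β (i, j) s * y s

/-- the exponential `exp (s X)` of a nilpotent matrix -/
noncomputable def expN {n : ℕ} (X : Matrix (Fin n) (Fin n) ℂ) (s : ℂ) : Matrix (Fin n) (Fin n) ℂ :=
  ∑ a ∈ Finset.range n, (s ^ a / (a.factorial : ℂ)) • X ^ a

/-- The family: the matrix `H(x)` has the entries `∑ β h(x)` with algebraic `β`, it is invertible near
`x = 0`, `x ≠ 0`, and the period matrix of the variation is `H(x) x^N C`. The set `𝒩` consists of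
directions of one-parameter groups of the monodromy group, every direction with its action `X.1` on the
solutions `h` and its action `X.2` on the cohomology: both are nilpotent, they are compatible with `β`, all
polynomial relations `R(x, h(x)) = 0` over `ℚ[x]` hold near `x = 0` also for the vectors `h(x) g`, where `g`
is a product of matrices `exp (s X.1)`, `X ∈ 𝒩`, and the span of the `X.2` is normalised by the local
monodromy `exp (2 π i N)` (it is the Lie algebra of the subgroup of the monodromy group which fixes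
`log x`). -/
structure Family {r n : ℕ} (β : Fin n × Fin n → Fin r → ℂ) (h : Fin r → PowerSeries ℚ)
    (N : Matrix (Fin n) (Fin n) ℚ)
    (𝒩 : Set (Matrix (Fin r) (Fin r) ℂ × Matrix (Fin n) (Fin n) ℂ)) : Prop where
  alg : ∀ a s, IsAlgebraic ℚ (β a s)
  det : ∃ ρ : ℝ, 0 < ρ ∧ ∀ z : ℂ, z ≠ 0 → ‖z‖ < ρ → (comb β (val h z)).det ≠ 0
  nil : N ^ n = 0
  dir : ∀ X ∈ 𝒩, X.1 ^ r = 0 ∧ X.2 ^ n = 0
  equiv : ∀ X ∈ 𝒩, ∀ y : Fin r → ℂ, comb β (Matrix.vecMul y X.1) = comb β y * X.2
  normal : ∀ X ∈ 𝒩, ∀ s : ℂ, expN (toC N) s * X.2 * expN (toC N) (-s) ∈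
    Submodule.span ℂ (Prod.snd '' 𝒩)
  inv : ∃ ρ : ℝ, 0 < ρ ∧ ∀ R : MvPolynomial (Fin r) (Polynomial ℚ), MvPolynomial.aeval h R = 0 →
    ∀ z : ℂ, ‖z‖ < ρ → ∀ g ∈ Submonoid.closure {g | ∃ X ∈ 𝒩, ∃ s : ℂ, g = expN X.1 s},
      MvPolynomial.eval₂ (Polynomial.aeval z : Polynomial ℚ →ₐ[ℚ] ℂ).toRingHom
        (Matrix.vecMul (val h z) g) R = 0

/-- The period matrix `H(x) x^N C = H(x) exp (N log x) C` at `x = 1 / ξ`, with the value `-l` of `log x`,
where `exp l = ξ`; the rows belong to a basis of de Rham cohomology, the columns to a rational basis. -/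
noncomputable def per {r n : ℕ} (β : Fin n × Fin n → Fin r → ℂ) (h : Fin r → PowerSeries ℚ)
    (N : Matrix (Fin n) (Fin n) ℚ) (C : Matrix (Fin n) (Fin n) ℂ) (ξ l : ℂ) :
    Matrix (Fin n) (Fin n) ℂ := comb β (val h (1 / ξ)) * expN (toC N) (-l) * C

/-- the tensor power of a matrix -/
def tens {α γ : Type} (a : ℕ) (A : Matrix α γ ℂ) : Matrix (Fin a → α) (Fin a → γ) ℂ :=
  Matrix.of fun i m => ∏ s, A (i s) (m s)

/-- the action `X ⊗ 1 ⊗ ⋯ ⊗ 1 + ⋯ + 1 ⊗ ⋯ ⊗ 1 ⊗ X` of a matrix on the tensor power -/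
def dtens {ι : Type} [DecidableEq ι] (a : ℕ) (X : Matrix ι ι ℂ) : Matrix (Fin a → ι) (Fin a → ι) ℂ :=
  Matrix.of fun i m => ∑ s, ∏ s', if s' = s then X (i s') (m s') else (if i s' = m s' then (1 : ℂ) else 0)

/-- The rational tensor `T` of type `(a, b)`, a homomorphism from the `a`-th to the `b`-th tensor power in
the rational coordinates, is algebraic in de Rham cohomology up to a factor: its coordinates
with respect to the basis of de Rham cohomology are proportional to elements of a number field of degree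
at most `D`. (All Hodge tensors on an abelian variety, and all algebraic classes, have this property.) -/
def AlgebraicTensor {ι : Type} [Fintype ι] [DecidableEq ι] (D : ℕ) (P : Matrix ι ι ℂ) {a b : ℕ}
    (T : Matrix (Fin a → ι) (Fin b → ι) ℚ) : Prop :=
  ∃ (K : IntermediateField ℚ ℂ) (κ : ℂ), FiniteDimensional ℚ K ∧ Module.finrank ℚ K ≤ D ∧ κ ≠ 0 ∧
    ∀ i m, ∃ w ∈ K, (tens a P * toC T * tens b P⁻¹) i m = κ * w

/-- the operator `X` preserves the line of the tensor `T` -/
def Preserves {ι : Type} [Fintype ι] [DecidableEq ι] {a b : ℕ} (X : Matrix ι ι ℂ)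
    (T : Matrix (Fin a → ι) (Fin b → ι) ℚ) : Prop :=
  ∃ μ : ℂ, dtens a X * toC T - toC T * dtens b X = μ • toC T

theorem dtens_eq {ι : Type} [DecidableEq ι] (a : ℕ) (X : Matrix ι ι ℂ) :
    dtens a X = Pool.Agent.T2h17.AH.dpw a X := by
  ext i m
  rw [Pool.Agent.T2h17.AH.dpw, Matrix.sum_apply, dtens, Matrix.of_apply]
  refine Finset.sum_congr rfl fun s _ => ?_
  rw [Pool.Agent.T2h17.AH.tp_apply]
  refine Finset.prod_congr rfl fun s' _ => ?_
  by_cases h : s' = s
  · subst h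
    rw [if_pos rfl, Function.update_self]
  · rw [if_neg h, Function.update_of_ne h, Matrix.one_apply]

theorem preserves_iff {ι : Type} [Fintype ι] [DecidableEq ι] {a b : ℕ} {X : Matrix ι ι ℂ}
    {T : Matrix (Fin a → ι) (Fin b → ι) ℚ} : Preserves X T ↔ Pool.Agent.T2h17.AH.Pres T X := by
  unfold Preserves
  rw [dtens_eq, dtens_eq]
  exact Iff.rfl

/-- the space of the operators which preserve the lines of all algebraic tensors of type `(a, b)` with
`a, b ≤ a₀` -/
def TensorLie {ι : Type} [Fintype ι] [DecidableEq ι] (D a₀ : ℕ) (P : Matrix ι ι ℂ) :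
    Submodule ℂ (Matrix ι ι ℂ) where
  carrier := {X | ∀ a ≤ a₀, ∀ b ≤ a₀, ∀ T : Matrix (Fin a → ι) (Fin b → ι) ℚ,
    AlgebraicTensor D P T → Preserves X T}
  add_mem' := fun hX hY a ha b hb T hT => preserves_iff.2
    ((Pool.Agent.T2h17.AH.LieT D a₀ P).add_mem
      (fun a ha b hb T hT => preserves_iff.1 (hX a ha b hb T hT))
      (fun a ha b hb T hT => preserves_iff.1 (hY a ha b hb T hT)) a ha b hb T hT)
  zero_mem' := fun a ha b hb T hT => preserves_iff.2
    ((Pool.Agent.T2h17.AH.LieT D a₀ P).zero_mem a ha b hb T hT)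
  smul_mem' := fun c _ hX a ha b hb T hT => preserves_iff.2
    ((Pool.Agent.T2h17.AH.LieT D a₀ P).smul_mem c
      (fun a ha b hb T hT => preserves_iff.1 (hX a ha b hb T hT)) a ha b hb T hT)

theorem lie_eq {ι : Type} [Fintype ι] [DecidableEq ι] (D a₀ : ℕ) (P : Matrix ι ι ℂ) :
    TensorLie D a₀ P = Pool.Agent.T2h17.AH.LieT D a₀ P := by
  ext X
  constructor
  · exact fun h a ha b hb T hT => preserves_iff.1 (h a ha b hb T hT)
  · exact fun h a ha b hb T hT => preserves_iff.2 (h a ha b hb T hT)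

/-- the conjugation `Y ↦ C⁻¹ Y C` from the flat coordinates to the rational coordinates -/
noncomputable def conjBy {n : ℕ} (C : Matrix (Fin n) (Fin n) ℂ) :
    Matrix (Fin n) (Fin n) ℂ →ₗ[ℂ] Matrix (Fin n) (Fin n) ℂ where
  toFun := fun Y => C⁻¹ * Y * C
  map_add' := fun Y Y' => by rw [Matrix.mul_add, Matrix.add_mul]
  map_smul' := fun c Y => by
    rw [Matrix.mul_smul, Matrix.smul_mul]
    rfl

/-- the Lie algebra of the monodromy group in the flat coordinates: the span of `N` and of the directions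
in `𝒩` -/
def mon {r n : ℕ} (N : Matrix (Fin n) (Fin n) ℚ)
    (𝒩 : Set (Matrix (Fin r) (Fin r) ℂ × Matrix (Fin n) (Fin n) ℂ)) :
    Submodule ℂ (Matrix (Fin n) (Fin n) ℂ) := Submodule.span ℂ (Prod.snd '' 𝒩 ∪ {toC N})

/-- The codimension `dim 𝔤 - dim (𝔤 ∩ 𝔪)` at the point `x = 1 / ξ` with the logarithm `l` of `ξ` is at most
`ν`, where `𝔤` is the Lie algebra of the monodromy group and `𝔪` is the space of all operators which
preserve the lines of the algebraic tensors of the fibre. -/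
def CodimLe {n r : ℕ} (D a₀ : ℕ) (β : Fin n × Fin n → Fin r → ℂ) (h : Fin r → PowerSeries ℚ)
    (N : Matrix (Fin n) (Fin n) ℚ)
    (𝒩 : Set (Matrix (Fin r) (Fin r) ℂ × Matrix (Fin n) (Fin n) ℂ)) (C : Matrix (Fin n) (Fin n) ℂ)
    (ξ l : ℂ) (ν : ℕ) : Prop :=
  Module.finrank ℂ ((mon N 𝒩).map (conjBy C)) -
    Module.finrank ℂ ((mon N 𝒩).map (conjBy C) ⊓ TensorLie D a₀ (per β h N C ξ l) :
      Submodule ℂ _) ≤ ν

/-- The monodromy group contains the symplectic group of a nondegenerate alternating form. -/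
def Symplectic {r n : ℕ} (N : Matrix (Fin n) (Fin n) ℚ)
    (𝒩 : Set (Matrix (Fin r) (Fin r) ℂ × Matrix (Fin n) (Fin n) ℂ)) : Prop :=
  ∃ S : Matrix (Fin n) (Fin n) ℂ, S.transpose = -S ∧ S.det ≠ 0 ∧
    ∀ X : Matrix (Fin n) (Fin n) ℂ, X * S + S * X.transpose = 0 → X ∈ mon N 𝒩

/-- the rational endomorphism `B` is algebraic in de Rham cohomology, over a number field of degree at most
`D` (endomorphisms of abelian varieties have this property) -/
def AlgebraicEnd {ι : Type} [Fintype ι] [DecidableEq ι] (D : ℕ) (P : Matrix ι ι ℂ) (B : Matrix ι ι ℚ) :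
    Prop :=
  ∃ K : IntermediateField ℚ ℂ, FiniteDimensional ℚ K ∧ Module.finrank ℚ K ≤ D ∧
    ∀ i m, (P * toC B * P⁻¹) i m ∈ K

/-- the bound `ν` for the codimension, and, if the monodromy group is symplectic and `ν < n`, the absence
of algebraic endomorphisms different from the scalars -/
def Bound {n r : ℕ} (D a₀ : ℕ) (β : Fin n × Fin n → Fin r → ℂ) (h : Fin r → PowerSeries ℚ)
    (N : Matrix (Fin n) (Fin n) ℚ)
    (𝒩 : Set (Matrix (Fin r) (Fin r) ℂ × Matrix (Fin n) (Fin n) ℂ)) (C : Matrix (Fin n) (Fin n) ℂ)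
    (ξ l : ℂ) (ν : ℕ) : Prop :=
  CodimLe D a₀ β h N 𝒩 C ξ l ν ∧ (Symplectic N 𝒩 → ν < n → ∀ B : Matrix (Fin n) (Fin n) ℚ,
    AlgebraicEnd D (per β h N C ξ l) B → ∃ c : ℚ, B = c • 1)

/-- the matrices `Z` such that `Z C` is tangent at `C` to the variety of all rational equations of degree
at most `d` which hold for `C` -/
def Tangent {n : ℕ} (d : ℕ) (C : Matrix (Fin n) (Fin n) ℂ) :
    Submodule ℂ (Matrix (Fin n) (Fin n) ℂ) where
  carrier := {Z | ∀ f : MvPolynomial (Fin n × Fin n) ℚ, f.totalDegree ≤ d →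
    MvPolynomial.aeval (fun a => C a.1 a.2) f = 0 →
    ∑ a, MvPolynomial.aeval (fun a => C a.1 a.2) (MvPolynomial.pderiv a f) * (Z * C) a.1 a.2 = 0}
  add_mem' := fun hZ hZ' => (Pool.Agent.T2h17.TV.Tg d C).add_mem hZ hZ'
  zero_mem' := (Pool.Agent.T2h17.TV.Tg d C).zero_mem
  smul_mem' := fun c _ hZ => (Pool.Agent.T2h17.TV.Tg d C).smul_mem c hZ

/-- Transversality at the point `x = 1 / ξ` with the logarithm `l` of `ξ`: for all `Y` in the Lie algebra of
the monodromy group there is a `Z` in the sum of the tangent space at `C` and of the line of `N` such that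
the operator `Y + Z`, in rational coordinates, preserves the lines of ALL algebraic tensors of the fibre. -/
def Transversal {n r : ℕ} (d D a₀ : ℕ) (β : Fin n × Fin n → Fin r → ℂ) (h : Fin r → PowerSeries ℚ)
    (N : Matrix (Fin n) (Fin n) ℚ)
    (𝒩 : Set (Matrix (Fin r) (Fin r) ℂ × Matrix (Fin n) (Fin n) ℂ)) (C : Matrix (Fin n) (Fin n) ℂ)
    (ξ l : ℂ) : Prop :=
  ∀ Y ∈ mon N 𝒩, ∃ Z ∈ Tangent d C ⊔ Submodule.span ℂ {toC N},
    conjBy C (Y + Z) ∈ TensorLie D a₀ (per β h N C ξ l)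

/-- the Lie algebra of the infinitesimal similitudes of the form `S` which normalise the line of `N` -/
def Similitudes {n : ℕ} (N S : Matrix (Fin n) (Fin n) ℂ) : Submodule ℂ (Matrix (Fin n) (Fin n) ℂ) where
  carrier := {Z | (∃ μ : ℂ, Z * N - N * Z = μ • N) ∧ ∃ η : ℂ, Z * S + S * Z.transpose = η • S}
  add_mem' := fun hZ hZ' => (Pool.Agent.T2h17.TV.Nrm N S).add_mem hZ hZ'
  zero_mem' := (Pool.Agent.T2h17.TV.Nrm N S).zero_mem
  smul_mem' := fun c _ hZ => (Pool.Agent.T2h17.TV.Nrm N S).smul_mem c hZ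

/-- The base change `C` from the flat basis to a rational basis is a polarised rational structure: the
logarithm `2 π i C⁻¹ N C` of the local monodromy is rational and the form with the matrix `S` in the flat
basis is proportional to a rational form. -/
structure RationalStructure {n : ℕ} (S N : Matrix (Fin n) (Fin n) ℚ) (C : Matrix (Fin n) (Fin n) ℂ) :
    Prop where
  det : C.det ≠ 0
  log : ∃ M : Matrix (Fin n) (Fin n) ℚ, C * toC M = (2 * (Real.pi : ℂ) * Complex.I) • (toC N * C)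
  form : ∃ (P : Matrix (Fin n) (Fin n) ℚ) (κ : ℂ), κ ≠ 0 ∧ C * toC P * C.transpose = κ • toC S

/-- the transcendence degree of the field which is generated by the entries of `C` is at most `τ` -/
def TrdegLe {n : ℕ} (C : Matrix (Fin n) (Fin n) ℂ) (τ : ℕ) : Prop :=
  Algebra.trdeg ℚ (IntermediateField.adjoin ℚ (Set.range fun a : Fin n × Fin n => C a.1 a.2)) ≤ τ

/-- `ξ` is a root of a nonzero integral polynomial of degree at most `g` with coefficients of size at
most `|ξ|^A` -/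
def Height (g A : ℕ) (ξ : ℂ) : Prop :=
  ∃ p : Polynomial ℤ, p ≠ 0 ∧ p.natDegree ≤ g ∧ (∀ j, |(p.coeff j : ℝ)| ≤ ‖ξ‖ ^ A) ∧
    Polynomial.aeval ξ p = 0

/-- The set of the roots of nonzero integral polynomials of degree `≤ D` with leading coefficient of
absolute value `≤ 2^D` all of whose roots `ξ'` with `|ξ'| > R` are in `Sp`. It contains the algebraic
integers of degree `≤ D` all of whose conjugates of absolute value greater than `R` are in `Sp`. -/
def Roots (Sp : Set ℂ) (R : ℝ) (D : ℕ) : Set ℂ :=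
  {ξ : ℂ | ∃ p : Polynomial ℤ, p ≠ 0 ∧ p.natDegree ≤ D ∧ |p.leadingCoeff| ≤ 2 ^ D ∧
    Polynomial.aeval ξ p = 0 ∧ ∀ ξ' : ℂ, Polynomial.aeval ξ' p = 0 → R < ‖ξ'‖ → ξ' ∈ Sp}

/-- Polynomial height bound for the sets `Sp D`: for every `R` there is a `c` such that for all `D`
(1) the elements `ξ` of `Sp D` of degree `≤ D` and height `≤ |ξ|^D` satisfy `|ξ| < 2^((D+2)^c)`, and there
are at most `2^((D+2)^c)` such elements;
(2) the set `Roots (Sp D) R D` has at most `2^((D+2)^c)` elements, of absolute value less than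
`2^((D+2)^c)`; it contains all algebraic integers `ξ` of degree `≤ D` all of whose conjugates of absolute
value greater than `R` are in `Sp D`. -/
def HeightBound (Sp : ℕ → Set ℂ) : Prop := ∀ R : ℝ, ∃ c : ℕ, ∀ D : ℕ,
  (∀ ξ ∈ Sp D, Height D D ξ → ‖ξ‖ < 2 ^ ((D + 2) ^ c)) ∧
  {ξ : ℂ | ξ ∈ Sp D ∧ Height D D ξ}.Finite ∧
  {ξ : ℂ | ξ ∈ Sp D ∧ Height D D ξ}.ncard ≤ 2 ^ ((D + 2) ^ c) ∧
  (∀ ξ ∈ Roots (Sp D) R D, ‖ξ‖ < 2 ^ ((D + 2) ^ c)) ∧ (Roots (Sp D) R D).Finite ∧
  (Roots (Sp D) R D).ncard ≤ 2 ^ ((D + 2) ^ c) ∧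
  ∀ ξ : ℂ, IsIntegral ℤ ξ → (minpoly ℚ ξ).natDegree ≤ D →
    (∀ ξ' : ℂ, Polynomial.aeval ξ' (minpoly ℚ ξ) = 0 → R < ‖ξ'‖ → ξ' ∈ Sp D) → ξ ∈ Roots (Sp D) R D

/-- counting -/
theorem height_bound {Sp : ℕ → Set ℂ} (hmono : ∀ D D' : ℕ, D ≤ D' → Sp D ⊆ Sp D')
    (h : ∃ t₀ : ℕ, ∀ (D : ℕ) (ξ : ℂ), (2 : ℝ) ^ ((D + 2) ^ t₀) ≤ ‖ξ‖ → Height D D ξ → ξ ∉ Sp D) :
    HeightBound Sp := fun R => Pool.Agent.T2h17.GH.cntf hmono h R

theorem iter_eq {r : ℕ} (T : Polynomial ℤ) (A : Fin r → Fin r → Polynomial ℤ) (s : ℕ) :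
    iter T A s = Pool.Agent.Y120.GH.itm T A s := by
  induction s with
  | zero => rfl
  | succ s ih =>
    funext i j
    rw [iter, Pool.Agent.Y120.GH.itm, ih]

/-- the G-system -/
theorem gsys {r : ℕ} {T : Polynomial ℤ} {A : Fin r → Fin r → Polynomial ℤ}
    {h : Fin r → PowerSeries ℚ} (hG : GFamily T A h) : ∃ (q : ℕ) (C : ℝ),
    Pool.Agent.Y113.GSys q C T (fun i : Option (Fin r) => i.elim (1 : PowerSeries ℚ) h) :=
  Pool.Agent.T2h17.GH.gsys_one hG.ode hG.size hG.den (by
    obtain ⟨C, hC⟩ := hG.galochkin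
    refine ⟨C, fun m => ?_⟩
    obtain ⟨d, h1, h2, h3⟩ := hC m
    refine ⟨d, h1, h2, fun s hs i' j' => ?_⟩
    rw [← iter_eq]
    exact h3 s hs i' j')

/-- the bound for a fixed rational structure -/
theorem finrank_fixed {n : ℕ} {C : Matrix (Fin n) (Fin n) ℂ} (hC : C.det ≠ 0) {τ : ℕ}
    (hτ : TrdegLe C τ) (N : Matrix (Fin n) (Fin n) ℚ) : ∃ d : ℕ,
    Module.finrank ℂ (Pool.Agent.T2h17.TV.Tg d C ⊔ Submodule.span ℂ {toC N} : Submodule ℂ _) ≤
      τ + if N = 0 then 0 else 1 := by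
  obtain ⟨d, hd⟩ := Pool.Agent.T2h17.TV.finrank_Tg hC
  refine ⟨d, ?_⟩
  have h1 : Module.finrank ℂ (Pool.Agent.T2h17.TV.Tg d C) ≤ τ := by
    exact_mod_cast hd.trans hτ
  split_ifs with hN
  · subst hN
    have h2 : toC (0 : Matrix (Fin n) (Fin n) ℚ) = 0 := by
      ext i j
      simp [toC]
    rw [h2, Submodule.span_zero_singleton, sup_bot_eq]
    exact h1
  · refine (Submodule.finrank_add_le_finrank_add_finrank _ _).trans (Nat.add_le_add h1 ?_)
    refine (finrank_span_le_card _).trans ?_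
    simp

/-- the similitudes -/
theorem le_sim {n : ℕ} {S N : Matrix (Fin n) (Fin n) ℚ} {C : Matrix (Fin n) (Fin n) ℂ}
    (hN : toC N * toC S + toC S * (toC N).transpose = 0) (hC : RationalStructure S N C) :
    Pool.Agent.T2h17.TV.Tg 2 C ⊔ Submodule.span ℂ {toC N} ≤ Similitudes (toC N) (toC S) := by
  obtain ⟨hdet, ⟨M, hM⟩, P, κ, hκ, hP⟩ := hC
  refine sup_le ?_ ?_
  · intro Z hZ
    exact Pool.Agent.T2h17.TV.Tg_le_Nrm hdet Complex.two_pi_I_ne_zero hM hκ hP hZ
  · rw [Submodule.span_le, Set.singleton_subset_iff]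
    exact ⟨⟨0, by rw [sub_self, zero_smul]⟩, 0, by rw [hN, zero_smul]⟩

theorem one_sim {n : ℕ} (N S : Matrix (Fin n) (Fin n) ℂ) :
    (1 : Matrix (Fin n) (Fin n) ℂ) ∈ Similitudes N S := by
  refine ⟨⟨0, by rw [Matrix.one_mul, Matrix.mul_one, sub_self, zero_smul]⟩, 2, ?_⟩
  rw [Matrix.one_mul, Matrix.transpose_one, Matrix.mul_one, two_smul]

/-- the transversality theorem -/
theorem points {n r : ℕ} {T : Polynomial ℤ} {A : Fin r → Fin r → Polynomial ℤ}
    {h : Fin r → PowerSeries ℚ} (hG : GFamily T A h) {β : Fin n × Fin n → Fin r → ℂ}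
    {N : Matrix (Fin n) (Fin n) ℚ}
    {𝒩 : Set (Matrix (Fin r) (Fin r) ℂ × Matrix (Fin n) (Fin n) ℂ)} (hM : Family β h N 𝒩)
    (d a₀ c₀ : ℕ) : ∃ t₀ : ℕ, ∀ (D : ℕ) (ξ : ℂ), (2 : ℝ) ^ ((D + 2) ^ t₀) ≤ ‖ξ‖ → Height D D ξ →
      ∀ (C : Matrix (Fin n) (Fin n) ℂ) (l : ℂ), C.det ≠ 0 → (comb β (val h (1 / ξ))).det ≠ 0 ∧
      Pool.Agent.T2h17.AH.Trans3 (k := 1) β N 𝒩 d a₀ ((D + 2) ^ c₀) C (fun _ => val h (1 / ξ)) l
        (fun _ => 0) := by
  obtain ⟨ρ₁, hρ₁, hinv⟩ := hM.inv
  obtain ⟨ρ₂, hρ₂, hdet⟩ := hM.det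
  set ρ' : ℝ := min ρ₁ ρ₂ with hρ'
  have hρ'0 : 0 < ρ' := lt_min hρ₁ hρ₂
  have hρ'2 : ρ' ≤ ρ₁ := min_le_left _ _
  have hρ'3 : ρ' ≤ ρ₂ := min_le_right _ _
  have hcl : Submonoid.closure {g | ∃ X ∈ 𝒩, ∃ s : ℂ, g = expN X.1 s} =
      Pool.Agent.T2h17.HW.Grp (Prod.fst '' 𝒩) := by
    unfold Pool.Agent.T2h17.HW.Grp
    congr 1
    ext g
    constructor
    · rintro ⟨X, hX, s, rfl⟩
      exact ⟨X.1, ⟨X, hX, rfl⟩, s, rfl⟩
    · rintro ⟨_, ⟨X, hX, rfl⟩, s, rfl⟩
      exact ⟨X, hX, s, rfl⟩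
  have hinv' : Pool.Agent.T2h17.AH.InvV h (Prod.fst '' 𝒩) ρ' := fun R hR z hz g hg =>
    hinv R hR z (hz.trans_le hρ'2) g (by rw [hcl]; exact hg)
  obtain ⟨q, Cg, hgs⟩ := gsys hG
  exact Pool.Agent.T2h17.GH.trans4 Pool.Agent.T2h17.GH.t_low Pool.Agent.T2h17.GH.t_grow
    Pool.Agent.T2h17.GH.t_depf hG.T_ne hgs hM.alg hM.nil (fun X hX => (hM.dir X hX).1) hM.equiv
    (by
      rintro _ ⟨X, hX, rfl⟩ s
      exact hM.normal X hX s) hρ'0 hinv' (fun z hz hz' => hdet z hz (hz'.trans_le hρ'3)) d a₀ c₀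

/-- the determinant of the period matrices -/
theorem per_det {n r : ℕ} {β : Fin n × Fin n → Fin r → ℂ} {N : Matrix (Fin n) (Fin n) ℚ}
    (hN : N ^ n = 0) {C : Matrix (Fin n) (Fin n) ℂ} (hC : C.det ≠ 0) {v : Fin r → ℂ}
    (hv : (comb β v).det ≠ 0) (l : ℂ) :
    (Pool.Agent.T2h17.AH.bt β v * Pool.Agent.T2h17.HW.En (Pool.Agent.T2h17.HW.tc N) (-l) *
      C).det ≠ 0 := by
  rw [Matrix.det_mul, Matrix.det_mul]
  exact mul_ne_zero (mul_ne_zero hv (Pool.Agent.T2h17.AH.det_En hN _)) hC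

/-- transversality in plain form -/
theorem plain {n r : ℕ} {D a₀ d : ℕ} {β : Fin n × Fin n → Fin r → ℂ}
    {h : Fin r → PowerSeries ℚ} {N : Matrix (Fin n) (Fin n) ℚ} (hN : N ^ n = 0)
    {𝒩 : Set (Matrix (Fin r) (Fin r) ℂ × Matrix (Fin n) (Fin n) ℂ)}
    {C : Matrix (Fin n) (Fin n) ℂ} (hC : C.det ≠ 0) {ξ l : ℂ}
    (hv : (comb β (val h (1 / ξ))).det ≠ 0)
    (hT : Pool.Agent.T2h17.AH.Trans3 (k := 1) β N 𝒩 d a₀ D C (fun _ => val h (1 / ξ)) l (fun _ => 0)) :
    Transversal d D a₀ β h N 𝒩 C ξ l := by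
  intro Y hY
  unfold Pool.Agent.T2h17.AH.Trans3 at hT
  simp only [add_zero] at hT
  obtain ⟨Z, hZ, h1⟩ := hT (fun _ => Y) (fun _ => hY)
  refine ⟨Z, hZ, ?_⟩
  have h2 := Pool.Agent.T2h17.AH.lie_comp (fun _ : Fin 1 => per_det hN hC hv l) h1 0
  rw [lie_eq]
  exact h2

/-- the bounds, from transversality -/
theorem bound_of {n r : ℕ} {D a₀ d ν : ℕ} (ha : 1 ≤ a₀) {β : Fin n × Fin n → Fin r → ℂ}
    {h : Fin r → PowerSeries ℚ} {N : Matrix (Fin n) (Fin n) ℚ} (hN : N ^ n = 0)
    {𝒩 : Set (Matrix (Fin r) (Fin r) ℂ × Matrix (Fin n) (Fin n) ℂ)}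
    {C : Matrix (Fin n) (Fin n) ℂ} (hC : C.det ≠ 0) {ξ l : ℂ}
    (hv : (comb β (val h (1 / ξ))).det ≠ 0)
    (hT : Pool.Agent.T2h17.AH.Trans3 (k := 1) β N 𝒩 d a₀ D C (fun _ => val h (1 / ξ)) l (fun _ => 0))
    {𝔗 : Submodule ℂ (Matrix (Fin n) (Fin n) ℂ)}
    (h𝔗 : Pool.Agent.T2h17.TV.Tg d C ⊔ Submodule.span ℂ {toC N} ≤ 𝔗)
    (hν : Module.finrank ℂ 𝔗 ≤ ν ∨
      (1 ≤ n ∧ (1 : Matrix (Fin n) (Fin n) ℂ) ∈ 𝔗 ∧ Module.finrank ℂ 𝔗 ≤ ν + 1)) :
    Bound D a₀ β h N 𝒩 C ξ l ν := by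
  refine ⟨?_, ?_⟩
  · have h1 := Pool.Agent.T2h17.AH.bound_abs (k := 1) hC (conjBy C) (fun _ => rfl)
      (fun _ => TensorLie D a₀ (per β h N C ξ l)) (g := mon N 𝒩) (T := 𝔗) (fun Y hY => ?_) (fun j => ?_) hν
    · rw [Finset.sum_const, Finset.card_univ, Fintype.card_fin, one_smul] at h1
      exact h1
    · obtain ⟨Z, hZ, h1⟩ := plain hN hC hv hT (Y 0) (hY 0)
      refine ⟨Z, h𝔗 hZ, fun j => ?_⟩
      rw [Subsingleton.elim j 0]
      exact h1
    · rw [lie_eq]
      exact Pool.Agent.T2h17.AH.one_mem_LieT _ _ _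
  · rintro ⟨S, hS, hd, hsp⟩ hνn B hB
    have hP : ∀ j : Fin 1, (Pool.Agent.T2h17.AH.bt β ((fun _ => val h (1 / ξ)) j) *
        Pool.Agent.T2h17.HW.En (Pool.Agent.T2h17.HW.tc N) (-(l + (fun _ : Fin 1 => (0 : ℂ)) j)) *
        C).det ≠ 0 := fun j => per_det hN hC hv _
    obtain ⟨R, hR, hgood⟩ := Pool.Agent.T2h17.AH.exceptional ha hC hT hP h𝔗 hS hd
      (fun X hX => hsp X hX) hν
    have hR0 : R = ∅ := by
      by_contra hne
      have h1 : 1 ≤ R.card := Finset.card_pos.2 (Finset.nonempty_iff_ne_empty.2 hne)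
      have h2 : n ≤ R.card * n := Nat.le_mul_of_pos_left n h1
      omega
    obtain ⟨K, hK, hKD, hB⟩ := hB
    have hPd : (per β h N C ξ l).det ≠ 0 := per_det hN hC hv l
    have hinv : (Matrix.blockDiagonal fun _ : Fin 1 => per β h N C ξ l)⁻¹ =
        Matrix.blockDiagonal fun _ : Fin 1 => (per β h N C ξ l)⁻¹ := by
      refine Matrix.inv_eq_left_inv ?_
      rw [← Matrix.blockDiagonal_mul]
      have h1 : (fun _ : Fin 1 => (per β h N C ξ l)⁻¹ * per β h N C ξ l) =
          fun _ => (1 : Matrix (Fin n) (Fin n) ℂ) := by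
        funext j
        exact Matrix.nonsing_inv_mul _ (isUnit_iff_ne_zero.2 hPd)
      rw [h1]
      exact Matrix.blockDiagonal_one
    have hAl : Pool.Agent.T2h17.AH.AlgE D (Matrix.blockDiagonal fun _ : Fin 1 => per β h N C ξ l)
        (Matrix.blockDiagonal fun _ => B) := by
      refine ⟨K, hK, hKD, ?_⟩
      rintro ⟨i, j⟩ ⟨m, j'⟩
      rw [Pool.Agent.T2h17.TV.tc_bd, hinv, ← Matrix.blockDiagonal_mul, ← Matrix.blockDiagonal_mul,
        Matrix.blockDiagonal_apply]
      split_ifs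
      · exact hB i m
      · exact zero_mem _
    have hAl' : Pool.Agent.T2h17.AH.AlgE D (Matrix.blockDiagonal fun j : Fin 1 =>
        Pool.Agent.T2h17.AH.bt β ((fun _ => val h (1 / ξ)) j) *
          Pool.Agent.T2h17.HW.En (Pool.Agent.T2h17.HW.tc N) (-(l + (fun _ : Fin 1 => (0 : ℂ)) j)) * C)
        (Matrix.blockDiagonal fun _ => B) := by
      simp only [add_zero]
      exact hAl
    obtain ⟨c, hc⟩ := hgood (Matrix.blockDiagonal fun _ => B) (fun a c hac => by
      exfalso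
      rcases hac with h | h <;> exact h (by rw [hR0, Finset.compl_empty]; exact Finset.mem_univ _)) hAl'
    refine ⟨c 0, ?_⟩
    ext i m
    have h2 := congrFun (congrFun hc (i, 0)) (m, 0)
    rw [Matrix.blockDiagonal_apply_eq, Matrix.blockDiagonal_apply_eq] at h2
    exact h2

/-- more tensors -/
theorem lie_mono {ι : Type} [Fintype ι] [DecidableEq ι] {D D' : ℕ} (hD : D ≤ D') (a₀ : ℕ)
    (P : Matrix ι ι ℂ) : TensorLie D' a₀ P ≤ TensorLie D a₀ P := by
  rintro X hX a ha b hb T ⟨K, κ, h1, h2, h3⟩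
  exact hX a ha b hb T ⟨K, κ, h1, h2.trans hD, h3⟩

theorem bound_mono {n r : ℕ} {D D' a₀ ν : ℕ} (hD : D ≤ D') {β : Fin n × Fin n → Fin r → ℂ}
    {h : Fin r → PowerSeries ℚ} {N : Matrix (Fin n) (Fin n) ℚ}
    {𝒩 : Set (Matrix (Fin r) (Fin r) ℂ × Matrix (Fin n) (Fin n) ℂ)}
    {C : Matrix (Fin n) (Fin n) ℂ} {ξ l : ℂ} (hB : Bound D' a₀ β h N 𝒩 C ξ l ν) :
    Bound D a₀ β h N 𝒩 C ξ l ν := by
  obtain ⟨h1, h2⟩ := hB
  refine ⟨le_trans ?_ h1, fun hs hν B hB => h2 hs hν B ?_⟩
  · exact Nat.sub_le_sub_left (Submodule.finrank_mono (inf_le_inf_left _ (lie_mono hD a₀ _))) _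
  · obtain ⟨K, h3, h4, h5⟩ := hB
    exact ⟨K, h3, h4.trans hD, h5⟩

/-- Let `h_1, …, h_r` be G-functions with rational coefficients, `H = ∑ β h` with algebraic `β`, and let
`N` be the logarithm of the local monodromy and `𝒩` the directions of the one-parameter subgroups of the
monodromy group. Let `a₀ ≥ 1` be a bound for the tensors and `c₀` an exponent; all tensors are algebraic
over number fields of degree at most `(D + 2)^c₀`.
(1) For every `d` there is a `c` such that for all `D`, all algebraic `ξ` of degree `≤ D` and height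
`≤ |ξ|^D` with `|ξ| ≥ 2^((D+2)^c)`, all logarithms `l` of `ξ` and all invertible matrices `C` transversality
holds at the point `x = 1 / ξ`.
(2) For every fixed `C` with transcendence degree at most `τ` the sets of the `ξ` such that the bound with
`ν = τ + 1` (with `ν = τ`, if `N = 0`) fails at `1 / ξ`, for some logarithm, have a polynomial height bound.
(3) The sets of the `ξ` such that the bound with the dimension, minus one, of the Lie algebra of
similitudes which normalise `N` fails at `1 / ξ`, for some logarithm and some polarised rational structure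
`C` (which may depend on `ξ`), have a polynomial height bound. -/
theorem result {n r : ℕ} (T : Polynomial ℤ) (A : Fin r → Fin r → Polynomial ℤ)
    (h : Fin r → PowerSeries ℚ) (hG : GFamily T A h) (β : Fin n × Fin n → Fin r → ℂ)
    (N : Matrix (Fin n) (Fin n) ℚ)
    (𝒩 : Set (Matrix (Fin r) (Fin r) ℂ × Matrix (Fin n) (Fin n) ℂ)) (hM : Family β h N 𝒩)
    (a₀ c₀ : ℕ) (ha : 1 ≤ a₀) :
    (∀ d : ℕ, ∃ c : ℕ, ∀ (D : ℕ) (ξ l : ℂ), (2 : ℝ) ^ ((D + 2) ^ c) ≤ ‖ξ‖ → Height D D ξ →
      Complex.exp l = ξ → ∀ C : Matrix (Fin n) (Fin n) ℂ, C.det ≠ 0 →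
      Transversal d ((D + 2) ^ c₀) a₀ β h N 𝒩 C ξ l) ∧
    (∀ (C : Matrix (Fin n) (Fin n) ℂ) (τ : ℕ), C.det ≠ 0 → TrdegLe C τ →
      HeightBound fun D => {ξ : ℂ | ∃ l : ℂ, Complex.exp l = ξ ∧
        ¬ Bound ((D + 2) ^ c₀) a₀ β h N 𝒩 C ξ l (τ + if N = 0 then 0 else 1)}) ∧
    (1 ≤ n → ∀ S : Matrix (Fin n) (Fin n) ℚ, toC N * toC S + toC S * (toC N).transpose = 0 →
      HeightBound fun D => {ξ : ℂ | ∃ l : ℂ, Complex.exp l = ξ ∧ ∃ C : Matrix (Fin n) (Fin n) ℂ,
        RationalStructure S N C ∧ ¬ Bound ((D + 2) ^ c₀) a₀ β h N 𝒩 C ξ l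
          (Module.finrank ℂ (Similitudes (toC N) (toC S)) - 1)}) := by
  have hN := hM.nil
  have hle : ∀ D D' : ℕ, D ≤ D' → (D + 2) ^ c₀ ≤ (D' + 2) ^ c₀ := fun D D' hD =>
    Nat.pow_le_pow_left (by omega) _
  refine ⟨fun d => ?_, fun C τ hC hτ => height_bound ?_ ?_, fun hn S hS => height_bound ?_ ?_⟩
  · obtain ⟨t₀, ht₀⟩ := points hG hM d a₀ c₀
    refine ⟨t₀, fun D ξ l hξ hht _ C hC => ?_⟩
    obtain ⟨h0, h1⟩ := ht₀ D ξ hξ hht C l hC
    exact plain hN hC h0 h1
  · rintro D D' hD ξ ⟨l, h1, h2⟩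
    exact ⟨l, h1, fun h3 => h2 (bound_mono (hle D D' hD) h3)⟩
  · obtain ⟨d, hd⟩ := finrank_fixed hC hτ N
    obtain ⟨t₀, ht₀⟩ := points hG hM d a₀ c₀
    refine ⟨t₀, ?_⟩
    rintro D ξ hξ hht ⟨l, -, hl⟩
    obtain ⟨h0, h1⟩ := ht₀ D ξ hξ hht C l hC
    exact hl (bound_of ha hN hC h0 h1 le_rfl (Or.inl hd))
  · rintro D D' hD ξ ⟨l, h1, C, hC, h2⟩
    exact ⟨l, h1, C, hC, fun h3 => h2 (bound_mono (hle D D' hD) h3)⟩
  · obtain ⟨t₀, ht₀⟩ := points hG hM 2 a₀ c₀
    refine ⟨t₀, ?_⟩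
    rintro D ξ hξ hht ⟨l, -, C, hC, hl⟩
    obtain ⟨h0, h1⟩ := ht₀ D ξ hξ hht C l hC.det
    exact hl (bound_of ha hN hC.det h0 h1 (le_sim hS hC) (Or.inr ⟨hn, one_sim _ _, by omega⟩))

end Pool.Agent.Results.MP_e573c6_ag.GrowingDegree
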