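import Mathlib
import Pool.Agent.T2h17.GH.All
import Pool.Agent.T2h17.GH.Ten
import Pool.Agent.T2h17.GH.Cnt
import Pool.Agent.T2h17.GP.Use
import Pool.Agent.T2h17.GP.One
import Pool.Agent.T2h17.GP.All

/-!
# Large Galois orbits of the points of curves in Shimura varieties which are not Hodge generic, near a CM point

Let `V` be the variation of the first cohomology of an abelian scheme of relative dimension `g`, `n = 2 g`,
(or any variation of rank `n` with a polarisation of odd weight which comes from geometry) on a curve `X`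
over a number field, `x` a local coordinate at a point `x₀` of `X`, with good reduction of the family at
`x₀` or unipotent local monodromy. The period matrix is `H(x) x^N C`, where the entries of `H` are linear
combinations with algebraic coefficients of G-functions `h₁, …, h_r` with rational coefficients (the
components of the restriction of scalars from the function field of `X` to `ℚ(x)`), `N` is a rational
nilpotent matrix and `C` is the matrix of the periods of the fibre at `x₀` (`N = 0`), or of the limit at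
`x₀`. The points of `X` near `x₀` are given by their coordinate `x = 1 / ξ`. We assume that the monodromy
group contains the full symplectic group (the curve in the moduli space is Hodge generic).

A rational tensor on the fibre is called algebraic if in the coordinates of de Rham cohomology it is, up to a
factor, algebraic over a number field of degree at most `(D + 2)^c₀`, where `D` is the degree of the point.
All Hodge tensors on abelian varieties have this property (Deligne), for a suitable `c₀`. The products of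
polarisations are obvious examples. A fibre is called generic if all algebraic tensors of degree `a ≤ a₀` are
linear combinations of products of polarisations. (For large `a₀` all points of the proper special
subvarieties of the moduli space, and in particular the points of the atypical locus, are not generic.)

The Zilber–Pink conjecture for curves has been reduced in many cases to lower bounds for the Galois orbits
of the points in special subvarieties (Habegger–Pila, Daw–Orr): the degree should be at least a power of the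
height. We prove such a bound near the given point `x₀` for ALL points which are not generic, if `x₀` is a
CM point and `g ≥ 2`, or if the transcendence degree `τ` of the periods `C` satisfies `τ < 2 g - 1`
(`τ + 1 < 2 g - 1` for `N ≠ 0`), or if the Lie algebra of the similitudes which normalise `N` has dimension
less than `2 g` (for example for variations of rank `n = 2 g ≥ 6` of higher weight with maximal unipotent local
monodromy; here the bound is uniform in all polarised rational structures): there is a constant `c` such that for all `D`, if `ξ` is algebraic of degree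
`≤ D` and of height `≤ |ξ|^D` and the fibre at `x = 1 / ξ` is not generic then `log |ξ| ≤ (D + 2)^c`.

`HodgeGenericWindows` contains tuples of points of bounded degree. `GrowingDegree` contains bounds for the
codimension of the Mumford–Tate group and for endomorphisms in growing degree, for general monodromy groups.

Proof. By the transversality theorem in growing degree the space of the elements of `𝔰𝔭` which preserve the
lines of the algebraic tensors is a Lie algebra of codimension less than `n - 1` in `𝔰𝔭`. The proper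
subalgebras of `𝔰𝔭_n` have codimension at least `n - 1`, so it is `𝔰𝔭`, and by the first fundamental theorem
for the symplectic group the invariant tensors are generated by the form. At a CM point the transcendence
degree of the periods is at most `g + 1`, also after the multiplication of `C` with a number `λ` which is
transcendental over the field of the periods; for such `λ C` the scalars are tangent to the relations, and
the bound is `g < n - 1`.

Parts of the algebra by helper32 (subalgebras of powers), helper78 (stabilisers, simplicity), helper71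
(minimal codimension), helper84 (rank one elements, brackets, periods of CM type), helper3 (invariant
tensors); engine in growing degree by helper11, helper31, helper84, helper88, helper91, helper916.
-/

set_option autoImplicit false

open PowerSeries

namespace Pool.Agent.Results.MP_e573c6_ag.HodgeGenericGrowingDegree

/-- an integer polynomial as a power series with rational coefficients -/
noncomputable def toQ (P : Polynomial ℤ) : PowerSeries ℚ :=
  ((P.map (Int.castRingHom ℚ) : Polynomial ℚ) : PowerSeries ℚ)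

/-- the matrices `G_s` over `ℤ[x]` with `T^s y^(s) = G_s y` for all solutions `y` of `T y' = A y` -/
noncomputable def iter {r : ℕ} (T : Polynomial ℤ) (A : Fin r → Fin r → Polynomial ℤ) :
    ℕ → Fin r → Fin r → Polynomial ℤ
  | 0 => fun i j => if i = j then 1 else 0
  | s + 1 => fun i j => T * Polynomial.derivative (iter T A s i j) + ∑ l, iter T A s i l * A l j -
      (s : Polynomial ℤ) * (Polynomial.derivative T * iter T A s i j)

/-- `h_1, ..., h_r` are G-functions with rational coefficients which solve the differential system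
`T y' = A y`, with the conditions of Siegel and Galochkin. -/
structure GFamily {r : ℕ} (T : Polynomial ℤ) (A : Fin r → Fin r → Polynomial ℤ)
    (h : Fin r → PowerSeries ℚ) : Prop where
  /-- the denominator is not zero -/
  T_ne : T ≠ 0
  /-- the differential equations -/
  ode : ∀ i, toQ T * PowerSeries.derivative ℚ (h i) = ∑ j, toQ (A i j) * h j
  /-- the coefficients have geometric growth -/
  size : ∃ C : ℝ, ∀ i m, |((coeff m (h i) : ℚ) : ℝ)| ≤ C ^ (m + 1)
  /-- the common denominators of the coefficients have geometric growth -/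
  den : ∃ C : ℝ, ∀ m : ℕ, ∃ d : ℕ, 0 < d ∧ (d : ℝ) ≤ C ^ (m + 1) ∧
    ∀ i, ∀ j ≤ m, ∃ a : ℤ, (d : ℚ) * coeff j (h i) = a
  /-- Galochkin's condition: the common denominators of the matrices `G_s / s!` have geometric growth -/
  galochkin : ∃ C : ℝ, ∀ m : ℕ, ∃ d : ℕ, 0 < d ∧ (d : ℝ) ≤ C ^ (m + 1) ∧ ∀ s ≤ m, ∀ i j,
    ∃ H : Polynomial ℤ, (d : Polynomial ℤ) * iter T A s i j = (s.factorial : Polynomial ℤ) * H

/-- rational matrices as complex matrices -/
def toC {α γ : Type} (M : Matrix α γ ℚ) : Matrix α γ ℂ := M.map fun x : ℚ => (x : ℂ)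

/-- the values of the power series `h_1, ..., h_r` at `z` -/
noncomputable def val {r : ℕ} (h : Fin r → PowerSeries ℚ) (z : ℂ) : Fin r → ℂ :=
  fun i => ∑' k : ℕ, ((coeff k (h i) : ℚ) : ℂ) * z ^ k

/-- the matrix with the entries `∑ β y`: linear combinations of `y_1, ..., y_r` -/
def comb {r n : ℕ} (β : Fin n × Fin n → Fin r → ℂ) (y : Fin r → ℂ) : Matrix (Fin n) (Fin n) ℂ :=
  Matrix.of fun i j => ∑ s, β (i, j) s * y s

/-- the exponential `exp (s X)` of a nilpotent matrix -/
noncomputable def expN {n : ℕ} (X : Matrix (Fin n) (Fin n) ℂ) (s : ℂ) : Matrix (Fin n) (Fin n) ℂ :=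
  ∑ a ∈ Finset.range n, (s ^ a / (a.factorial : ℂ)) • X ^ a

/-- The family: the matrix `H(x)` has the entries `∑ β h(x)` with algebraic `β`, it is invertible near
`x = 0`, `x ≠ 0`, and the period matrix of the variation is `H(x) x^N C`. The set `𝒩` consists of
directions of one-parameter groups of the monodromy group, every direction with its action `X.1` on the
solutions `h` and its action `X.2` on the cohomology: both are nilpotent, they are compatible with `β`, all
polynomial relations `R(x, h(x)) = 0` over `ℚ[x]` hold near `x = 0` also for the vectors `h(x) g`, where `g`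
is a product of matrices `exp (s X.1)`, `X ∈ 𝒩`, and the span of the `X.2` is normalised by the local
monodromy `exp (2 π i N)` (it is the Lie algebra of the subgroup of the monodromy group which fixes
`log x`). -/
structure Family {r n : ℕ} (β : Fin n × Fin n → Fin r → ℂ) (h : Fin r → PowerSeries ℚ)
    (N : Matrix (Fin n) (Fin n) ℚ)
    (𝒩 : Set (Matrix (Fin r) (Fin r) ℂ × Matrix (Fin n) (Fin n) ℂ)) : Prop where
  alg : ∀ a s, IsAlgebraic ℚ (β a s)
  det : ∃ ρ : ℝ, 0 < ρ ∧ ∀ z : ℂ, z ≠ 0 → ‖z‖ < ρ → (comb β (val h z)).det ≠ 0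
  nil : N ^ n = 0
  dir : ∀ X ∈ 𝒩, X.1 ^ r = 0 ∧ X.2 ^ n = 0
  equiv : ∀ X ∈ 𝒩, ∀ y : Fin r → ℂ, comb β (Matrix.vecMul y X.1) = comb β y * X.2
  normal : ∀ X ∈ 𝒩, ∀ s : ℂ, expN (toC N) s * X.2 * expN (toC N) (-s) ∈
    Submodule.span ℂ (Prod.snd '' 𝒩)
  inv : ∃ ρ : ℝ, 0 < ρ ∧ ∀ R : MvPolynomial (Fin r) (Polynomial ℚ), MvPolynomial.aeval h R = 0 →
    ∀ z : ℂ, ‖z‖ < ρ → ∀ g ∈ Submonoid.closure {g | ∃ X ∈ 𝒩, ∃ s : ℂ, g = expN X.1 s},
      MvPolynomial.eval₂ (Polynomial.aeval z : Polynomial ℚ →ₐ[ℚ] ℂ).toRingHom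
        (Matrix.vecMul (val h z) g) R = 0

/-- The period matrix `H(x) x^N C = H(x) exp (N log x) C` at `x = 1 / ξ`, with the value `-l` of `log x`,
where `exp l = ξ`; the rows belong to a basis of de Rham cohomology, the columns to a rational basis. -/
noncomputable def per {r n : ℕ} (β : Fin n × Fin n → Fin r → ℂ) (h : Fin r → PowerSeries ℚ)
    (N : Matrix (Fin n) (Fin n) ℚ) (C : Matrix (Fin n) (Fin n) ℂ) (ξ l : ℂ) :
    Matrix (Fin n) (Fin n) ℂ := comb β (val h (1 / ξ)) * expN (toC N) (-l) * C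

/-- The rational tensor `T` of degree `a` is algebraic in de Rham cohomology up to a factor: its coordinates
with respect to the basis of de Rham cohomology are proportional to elements of a number field of degree
at most `D`. (All Hodge tensors on abelian varieties and all algebraic classes have this property.) -/
def AlgebraicTensor {ι : Type} [Fintype ι] (D : ℕ) (P : Matrix ι ι ℂ) {a : ℕ} (T : (Fin a → ι) → ℚ) : Prop :=
  ∃ (K : IntermediateField ℚ ℂ) (κ : ℂ), FiniteDimensional ℚ K ∧ Module.finrank ℚ K ≤ D ∧ κ ≠ 0 ∧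
    ∀ i : Fin a → ι, ∃ w ∈ K, ∑ i' : Fin a → ι, (∏ s, P (i s) (i' s)) * (T i' : ℂ) = κ * w

/-- The product of polarisation tensors: the indices `1, …, a` are divided into the pairs
`{e (s, 0), e (s, 1)}`, and `P` is the matrix of the polarisation tensor in the rational coordinates. -/
def pairing {n a m : ℕ} (P : Matrix (Fin n) (Fin n) ℚ) (e : Fin m × Fin 2 ≃ Fin a) :
    (Fin a → Fin n) → ℚ := fun i => ∏ s, P (i (e (s, 0))) (i (e (s, 1)))

/-- All algebraic tensors of degree `a ≤ a₀` of the fibre with the period matrix `B` are linear combinations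
of products of polarisation tensors. -/
def Generic {n : ℕ} (D a₀ : ℕ) (P : Matrix (Fin n) (Fin n) ℚ) (B : Matrix (Fin n) (Fin n) ℂ) : Prop :=
  ∀ a ≤ a₀, ∀ T : (Fin a → Fin n) → ℚ, AlgebraicTensor D B T →
    T ∈ Submodule.span ℚ {Q | ∃ (m : ℕ) (e : Fin m × Fin 2 ≃ Fin a), Q = pairing P e}

/-- In the rational coordinates the polarisation `S` is proportional to the rational form `P`; `C` is the
base change. -/
structure Polarised {n : ℕ} (S : Matrix (Fin n) (Fin n) ℚ) (C : Matrix (Fin n) (Fin n) ℂ)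
    (P : Matrix (Fin n) (Fin n) ℚ) : Prop where
  det : C.det ≠ 0
  form : ∃ κ : ℂ, κ ≠ 0 ∧ C * toC P * C.transpose = κ • toC S

/-- The fibre with the period matrix `C` has complex multiplication: there is a rational endomorphism `M`
with `n` different eigenvalues which is algebraic in the coordinates of de Rham cohomology. -/
def ComplexMultiplication {n : ℕ} (C : Matrix (Fin n) (Fin n) ℂ) : Prop :=
  ∃ (M : Matrix (Fin n) (Fin n) ℚ) (A : Matrix (Fin n) (Fin n) ℂ), M.charpoly.Separable ∧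
    (∀ i j, IsAlgebraic ℚ (A i j)) ∧ C * toC M = A * C

/-- the Lie algebra of the monodromy group in the flat coordinates: the span of `N` and of the directions
in `𝒩` -/
def mon {r n : ℕ} (N : Matrix (Fin n) (Fin n) ℚ)
    (𝒩 : Set (Matrix (Fin r) (Fin r) ℂ × Matrix (Fin n) (Fin n) ℂ)) :
    Submodule ℂ (Matrix (Fin n) (Fin n) ℂ) := Submodule.span ℂ (Prod.snd '' 𝒩 ∪ {toC N})

/-- the Lie algebra of the infinitesimal similitudes of the form `S` which normalise the line of `N` -/
def Similitudes {n : ℕ} (N S : Matrix (Fin n) (Fin n) ℂ) : Submodule ℂ (Matrix (Fin n) (Fin n) ℂ) where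
  carrier := {Z | (∃ μ : ℂ, Z * N - N * Z = μ • N) ∧ ∃ η : ℂ, Z * S + S * Z.transpose = η • S}
  add_mem' := fun hZ hZ' => (Pool.Agent.T2h17.TV.Nrm N S).add_mem hZ hZ'
  zero_mem' := (Pool.Agent.T2h17.TV.Nrm N S).zero_mem
  smul_mem' := fun c _ hZ => (Pool.Agent.T2h17.TV.Nrm N S).smul_mem c hZ

/-- The base change `C` from the flat basis to a rational basis is a polarised rational structure: the
logarithm `2 π i C⁻¹ N C` of the local monodromy is rational and the form with the matrix `S` in the flat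
basis is proportional to a rational form. -/
structure RationalStructure {n : ℕ} (S N : Matrix (Fin n) (Fin n) ℚ) (C : Matrix (Fin n) (Fin n) ℂ) :
    Prop where
  det : C.det ≠ 0
  log : ∃ M : Matrix (Fin n) (Fin n) ℚ, C * toC M = (2 * (Real.pi : ℂ) * Complex.I) • (toC N * C)
  form : ∃ (P : Matrix (Fin n) (Fin n) ℚ) (κ : ℂ), κ ≠ 0 ∧ C * toC P * C.transpose = κ • toC S

/-- the transcendence degree of the field which is generated by the entries of `C` is at most `τ` -/
def TrdegLe {n : ℕ} (C : Matrix (Fin n) (Fin n) ℂ) (τ : ℕ) : Prop :=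
  Algebra.trdeg ℚ (IntermediateField.adjoin ℚ (Set.range fun a : Fin n × Fin n => C a.1 a.2)) ≤ τ

/-- `ξ` is a root of a nonzero integral polynomial of degree at most `g` with coefficients of size at
most `|ξ|^A` -/
def Height (g A : ℕ) (ξ : ℂ) : Prop :=
  ∃ p : Polynomial ℤ, p ≠ 0 ∧ p.natDegree ≤ g ∧ (∀ j, |(p.coeff j : ℝ)| ≤ ‖ξ‖ ^ A) ∧
    Polynomial.aeval ξ p = 0

/-- The set of the roots of nonzero integral polynomials of degree `≤ D` with leading coefficient of
absolute value `≤ 2^D` all of whose roots `ξ'` with `|ξ'| > R` are in `Sp`. It contains the algebraic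
integers of degree `≤ D` all of whose conjugates of absolute value greater than `R` are in `Sp`. -/
def Roots (Sp : Set ℂ) (R : ℝ) (D : ℕ) : Set ℂ :=
  {ξ : ℂ | ∃ p : Polynomial ℤ, p ≠ 0 ∧ p.natDegree ≤ D ∧ |p.leadingCoeff| ≤ 2 ^ D ∧
    Polynomial.aeval ξ p = 0 ∧ ∀ ξ' : ℂ, Polynomial.aeval ξ' p = 0 → R < ‖ξ'‖ → ξ' ∈ Sp}

/-- Polynomial height bound for the sets `Sp D`: for every `R` there is a `c` such that for all `D`
(1) the elements `ξ` of `Sp D` of degree `≤ D` and height `≤ |ξ|^D` satisfy `|ξ| < 2^((D+2)^c)`, and there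
are at most `2^((D+2)^c)` such elements;
(2) the set `Roots (Sp D) R D` has at most `2^((D+2)^c)` elements, of absolute value less than
`2^((D+2)^c)`; it contains all algebraic integers `ξ` of degree `≤ D` all of whose conjugates of absolute
value greater than `R` are in `Sp D`. -/
def HeightBound (Sp : ℕ → Set ℂ) : Prop := ∀ R : ℝ, ∃ c : ℕ, ∀ D : ℕ,
  (∀ ξ ∈ Sp D, Height D D ξ → ‖ξ‖ < 2 ^ ((D + 2) ^ c)) ∧
  {ξ : ℂ | ξ ∈ Sp D ∧ Height D D ξ}.Finite ∧
  {ξ : ℂ | ξ ∈ Sp D ∧ Height D D ξ}.ncard ≤ 2 ^ ((D + 2) ^ c) ∧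
  (∀ ξ ∈ Roots (Sp D) R D, ‖ξ‖ < 2 ^ ((D + 2) ^ c)) ∧ (Roots (Sp D) R D).Finite ∧
  (Roots (Sp D) R D).ncard ≤ 2 ^ ((D + 2) ^ c) ∧
  ∀ ξ : ℂ, IsIntegral ℤ ξ → (minpoly ℚ ξ).natDegree ≤ D →
    (∀ ξ' : ℂ, Polynomial.aeval ξ' (minpoly ℚ ξ) = 0 → R < ‖ξ'‖ → ξ' ∈ Sp D) → ξ ∈ Roots (Sp D) R D

/-- counting -/
theorem height_bound {Sp : ℕ → Set ℂ} (hmono : ∀ D D' : ℕ, D ≤ D' → Sp D ⊆ Sp D')
    (h : ∃ t₀ : ℕ, ∀ (D : ℕ) (ξ : ℂ), (2 : ℝ) ^ ((D + 2) ^ t₀) ≤ ‖ξ‖ → Height D D ξ → ξ ∉ Sp D) :
    HeightBound Sp := fun R => Pool.Agent.T2h17.GH.cntf hmono h R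

theorem iter_eq {r : ℕ} (T : Polynomial ℤ) (A : Fin r → Fin r → Polynomial ℤ) (s : ℕ) :
    iter T A s = Pool.Agent.Y120.GH.itm T A s := by
  induction s with
  | zero => rfl
  | succ s ih =>
    funext i j
    rw [iter, Pool.Agent.Y120.GH.itm, ih]

/-- the G-system -/
theorem gsys {r : ℕ} {T : Polynomial ℤ} {A : Fin r → Fin r → Polynomial ℤ}
    {h : Fin r → PowerSeries ℚ} (hG : GFamily T A h) : ∃ (q : ℕ) (C : ℝ),
    Pool.Agent.Y113.GSys q C T (fun i : Option (Fin r) => i.elim (1 : PowerSeries ℚ) h) :=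
  Pool.Agent.T2h17.GH.gsys_one hG.ode hG.size hG.den (by
    obtain ⟨C, hC⟩ := hG.galochkin
    refine ⟨C, fun m => ?_⟩
    obtain ⟨d, h1, h2, h3⟩ := hC m
    refine ⟨d, h1, h2, fun s hs i' j' => ?_⟩
    rw [← iter_eq]
    exact h3 s hs i' j')

/-- the bound for a fixed rational structure -/
theorem finrank_fixed {n : ℕ} {C : Matrix (Fin n) (Fin n) ℂ} (hC : C.det ≠ 0) {τ : ℕ}
    (hτ : TrdegLe C τ) (N : Matrix (Fin n) (Fin n) ℚ) : ∃ d : ℕ,
    Module.finrank ℂ (Pool.Agent.T2h17.TV.Tg d C ⊔ Submodule.span ℂ {toC N} : Submodule ℂ _) ≤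
      τ + if N = 0 then 0 else 1 := by
  obtain ⟨d, hd⟩ := Pool.Agent.T2h17.TV.finrank_Tg hC
  refine ⟨d, ?_⟩
  have h1 : Module.finrank ℂ (Pool.Agent.T2h17.TV.Tg d C) ≤ τ := by
    exact_mod_cast hd.trans hτ
  split_ifs with hN
  · subst hN
    have h2 : toC (0 : Matrix (Fin n) (Fin n) ℚ) = 0 := by
      ext i j
      simp [toC]
    rw [h2, Submodule.span_zero_singleton, sup_bot_eq]
    exact h1
  · refine (Submodule.finrank_add_le_finrank_add_finrank _ _).trans (Nat.add_le_add h1 ?_)
    refine (finrank_span_le_card _).trans ?_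
    simp

/-- the similitudes -/
theorem le_sim {n : ℕ} {S N : Matrix (Fin n) (Fin n) ℚ} {C : Matrix (Fin n) (Fin n) ℂ}
    (hN : toC N * toC S + toC S * (toC N).transpose = 0) (hC : RationalStructure S N C) :
    Pool.Agent.T2h17.TV.Tg 2 C ⊔ Submodule.span ℂ {toC N} ≤ Similitudes (toC N) (toC S) := by
  obtain ⟨hdet, ⟨M, hM⟩, P, κ, hκ, hP⟩ := hC
  refine sup_le ?_ ?_
  · intro Z hZ
    exact Pool.Agent.T2h17.TV.Tg_le_Nrm hdet Complex.two_pi_I_ne_zero hM hκ hP hZ
  · rw [Submodule.span_le, Set.singleton_subset_iff]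
    exact ⟨⟨0, by rw [sub_self, zero_smul]⟩, 0, by rw [hN, zero_smul]⟩

theorem one_sim {n : ℕ} (N S : Matrix (Fin n) (Fin n) ℂ) :
    (1 : Matrix (Fin n) (Fin n) ℂ) ∈ Similitudes N S := by
  refine ⟨⟨0, by rw [Matrix.one_mul, Matrix.mul_one, sub_self, zero_smul]⟩, 2, ?_⟩
  rw [Matrix.one_mul, Matrix.transpose_one, Matrix.mul_one, two_smul]

/-- the transversality theorem -/
theorem points {n r : ℕ} {T : Polynomial ℤ} {A : Fin r → Fin r → Polynomial ℤ}
    {h : Fin r → PowerSeries ℚ} (hG : GFamily T A h) {β : Fin n × Fin n → Fin r → ℂ}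
    {N : Matrix (Fin n) (Fin n) ℚ}
    {𝒩 : Set (Matrix (Fin r) (Fin r) ℂ × Matrix (Fin n) (Fin n) ℂ)} (hM : Family β h N 𝒩)
    (d a₀ c₀ : ℕ) : ∃ t₀ : ℕ, ∀ (D : ℕ) (ξ : ℂ), (2 : ℝ) ^ ((D + 2) ^ t₀) ≤ ‖ξ‖ → Height D D ξ →
      ∀ (C : Matrix (Fin n) (Fin n) ℂ) (l : ℂ), C.det ≠ 0 → (comb β (val h (1 / ξ))).det ≠ 0 ∧
      Pool.Agent.T2h17.AH.Trans3 (k := 1) β N 𝒩 d a₀ ((D + 2) ^ c₀) C (fun _ => val h (1 / ξ)) l
        (fun _ => 0) := by
  obtain ⟨ρ₁, hρ₁, hinv⟩ := hM.inv
  obtain ⟨ρ₂, hρ₂, hdet⟩ := hM.det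
  set ρ' : ℝ := min ρ₁ ρ₂ with hρ'
  have hρ'0 : 0 < ρ' := lt_min hρ₁ hρ₂
  have hρ'2 : ρ' ≤ ρ₁ := min_le_left _ _
  have hρ'3 : ρ' ≤ ρ₂ := min_le_right _ _
  have hcl : Submonoid.closure {g | ∃ X ∈ 𝒩, ∃ s : ℂ, g = expN X.1 s} =
      Pool.Agent.T2h17.HW.Grp (Prod.fst '' 𝒩) := by
    unfold Pool.Agent.T2h17.HW.Grp
    congr 1
    ext g
    constructor
    · rintro ⟨X, hX, s, rfl⟩
      exact ⟨X.1, ⟨X, hX, rfl⟩, s, rfl⟩
    · rintro ⟨_, ⟨X, hX, rfl⟩, s, rfl⟩
      exact ⟨X, hX, s, rfl⟩
  have hinv' : Pool.Agent.T2h17.AH.InvV h (Prod.fst '' 𝒩) ρ' := fun R hR z hz g hg =>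
    hinv R hR z (hz.trans_le hρ'2) g (by rw [hcl]; exact hg)
  obtain ⟨q, Cg, hgs⟩ := gsys hG
  exact Pool.Agent.T2h17.GH.trans4 Pool.Agent.T2h17.GH.t_low Pool.Agent.T2h17.GH.t_grow
    Pool.Agent.T2h17.GH.t_depf hG.T_ne hgs hM.alg hM.nil (fun X hX => (hM.dir X hX).1) hM.equiv
    (by
      rintro _ ⟨X, hX, rfl⟩ s
      exact hM.normal X hX s) hρ'0 hinv' (fun z hz hz' => hdet z hz (hz'.trans_le hρ'3)) d a₀ c₀

/-- **near a CM point** -/
theorem cm_point {n : ℕ} (hcmt : Pool.Agent.T2h17.GP.S_CMT) {S P : Matrix (Fin n) (Fin n) ℚ}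
    {C : Matrix (Fin n) (Fin n) ℂ} (hS : S.transpose = -S) (hd : S.det ≠ 0) (hP : Polarised S C P)
    (hcm : ComplexMultiplication C) : ∃ x : ℂ, x ≠ 0 ∧ Polarised S (x • C) P ∧ TrdegLe (x • C) (n / 2 + 1) ∧
      ∀ d, (1 : Matrix (Fin n) (Fin n) ℂ) ∈ Pool.Agent.T2h17.TV.Tg d (x • C) := by
  obtain ⟨x, hx, h1⟩ := Pool.Agent.T2h17.GP.scale C
  obtain ⟨hdet, κ, hκ, hf⟩ := hP
  obtain ⟨M, A, hM, hA, hCM⟩ := hcm
  have hdet' : (x • C).det ≠ 0 := by
    rw [Matrix.det_smul]
    exact mul_ne_zero (pow_ne_zero _ hx) hdet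
  have hκ' : x * (x * κ) ≠ 0 := mul_ne_zero hx (mul_ne_zero hx hκ)
  have hf' : (x • C) * toC P * (x • C).transpose = (x * (x * κ)) • toC S := by
    rw [Matrix.transpose_smul, Matrix.smul_mul, Matrix.smul_mul, Matrix.mul_smul, hf, smul_smul, smul_smul,
      mul_assoc]
  refine ⟨x, hx, ⟨hdet', _, hκ', hf'⟩, ?_, h1⟩
  exact hcmt n S P M A (x • C) _ hS hd hdet' hκ' hf' hA (by
    have h2 : x • C * toC M = A * (x • C) := by
      rw [Matrix.smul_mul, hCM, Matrix.mul_smul]
    exact h2) hM

/-- the period matrix of a multiple -/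
theorem smul_per {n r : ℕ} {β : Fin n × Fin n → Fin r → ℂ} {h : Fin r → PowerSeries ℚ}
    {N : Matrix (Fin n) (Fin n) ℚ} {C : Matrix (Fin n) (Fin n) ℂ} (ξ l x : ℂ) :
    per β h N (x • C) ξ l = x • per β h N C ξ l := by
  unfold per
  rw [Matrix.mul_smul]

/-- a multiple of the period matrix -/
theorem alg_smul {n a D : ℕ} {x : ℂ} (hx : x ≠ 0) {B : Matrix (Fin n) (Fin n) ℂ}
    {T : (Fin a → Fin n) → ℚ} (hA : AlgebraicTensor D B T) : AlgebraicTensor D (x • B) T :=
  Pool.Agent.T2h17.GP.at_smul hx hA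

/-- from transversality to genericness -/
theorem generic_of {n r : ℕ} {D a₀ d ν : ℕ} {β : Fin n × Fin n → Fin r → ℂ}
    {h : Fin r → PowerSeries ℚ} {N S P : Matrix (Fin n) (Fin n) ℚ}
    {𝒩 : Set (Matrix (Fin r) (Fin r) ℂ × Matrix (Fin n) (Fin n) ℂ)}
    {C : Matrix (Fin n) (Fin n) ℂ} (hS : S.transpose = -S) (hd : S.det ≠ 0) (hP : Polarised S C P)
    (hsp : ∀ X : Matrix (Fin n) (Fin n) ℂ, X * toC S + toC S * X.transpose = 0 → X ∈ mon N 𝒩) {ξ l : ℂ}
    (hT : Pool.Agent.T2h17.AH.Trans3 (k := 1) β N 𝒩 d a₀ D C (fun _ => val h (1 / ξ)) l (fun _ => 0))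
    {𝔗 : Submodule ℂ (Matrix (Fin n) (Fin n) ℂ)}
    (h𝔗 : Pool.Agent.T2h17.TV.Tg d C ⊔ Submodule.span ℂ {toC N} ≤ 𝔗)
    (hν : Module.finrank ℂ 𝔗 ≤ ν ∨
      (1 ≤ n ∧ (1 : Matrix (Fin n) (Fin n) ℂ) ∈ 𝔗 ∧ Module.finrank ℂ 𝔗 ≤ ν + 1)) (hνn : ν < n - 1) :
    Generic D a₀ P (per β h N C ξ l) := by
  obtain ⟨κ, hκ, hf⟩ := hP.form
  have h1 := Pool.Agent.T2h17.GP.use3 Pool.Agent.T2h17.GP.parts hS hd hP.det hκ hf hsp hT h𝔗 hν
  simp only [add_zero] at h1
  exact Pool.Agent.T2h17.GP.one_fibre hνn h1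

/-- more tensors -/
theorem generic_mono {n : ℕ} {D D' a₀ : ℕ} (hD : D ≤ D') {P : Matrix (Fin n) (Fin n) ℚ}
    {B : Matrix (Fin n) (Fin n) ℂ} (hB : Generic D' a₀ P B) : Generic D a₀ P B :=
  fun a ha T hT => hB a ha T (Pool.Agent.T2h17.GP.AT.mono hD hT)

/-- Let `h_1, …, h_r` be G-functions with rational coefficients, `H = ∑ β h` with algebraic `β`, let `N` be
the logarithm of the local monodromy and `𝒩` the directions of the one-parameter subgroups of the monodromy
group, and suppose that the Lie algebra of the monodromy group contains the symplectic Lie algebra of the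
nondegenerate form `S`. Let `a₀` be a bound for the tensors and `c₀` an exponent; all tensors are algebraic
over number fields of degree at most `(D + 2)^c₀`.
(1) For a fixed polarised `C` with transcendence degree at most `τ`, where `τ < n - 1` and `τ + 1 < n - 1` if
`N ≠ 0`, the sets of the `ξ` such that the fibre at `1 / ξ`, for some logarithm, is not generic have a
polynomial height bound.
(2) The same is true if `N = 0`, `n ≥ 4` and `C` has complex multiplication.
(3) If the dimension of the Lie algebra of the similitudes which normalise `N` is less than `n`, then the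
sets of the `ξ` such that the fibre at `1 / ξ` is not generic, for some logarithm and some polarised
rational structure `C` (which may depend on `ξ`), have a polynomial height bound. -/
theorem result {n r : ℕ} (T : Polynomial ℤ) (A : Fin r → Fin r → Polynomial ℤ)
    (h : Fin r → PowerSeries ℚ) (hG : GFamily T A h) (β : Fin n × Fin n → Fin r → ℂ)
    (N : Matrix (Fin n) (Fin n) ℚ)
    (𝒩 : Set (Matrix (Fin r) (Fin r) ℂ × Matrix (Fin n) (Fin n) ℂ)) (hM : Family β h N 𝒩)
    (S : Matrix (Fin n) (Fin n) ℚ) (hS : S.transpose = -S) (hd : S.det ≠ 0)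
    (hsp : ∀ X : Matrix (Fin n) (Fin n) ℂ, X * toC S + toC S * X.transpose = 0 → X ∈ mon N 𝒩)
    (a₀ c₀ : ℕ) :
    (∀ (C : Matrix (Fin n) (Fin n) ℂ) (P : Matrix (Fin n) (Fin n) ℚ) (τ : ℕ), Polarised S C P →
      TrdegLe C τ → (τ + if N = 0 then 0 else 1) < n - 1 →
      HeightBound fun D => {ξ : ℂ | ∃ l : ℂ, Complex.exp l = ξ ∧
        ¬ Generic ((D + 2) ^ c₀) a₀ P (per β h N C ξ l)}) ∧
    (4 ≤ n → N = 0 → ∀ (C : Matrix (Fin n) (Fin n) ℂ) (P : Matrix (Fin n) (Fin n) ℚ),
      Polarised S C P → ComplexMultiplication C →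
      HeightBound fun D => {ξ : ℂ | ∃ l : ℂ, Complex.exp l = ξ ∧
        ¬ Generic ((D + 2) ^ c₀) a₀ P (per β h N C ξ l)}) ∧
    (toC N * toC S + toC S * (toC N).transpose = 0 →
      Module.finrank ℂ (Similitudes (toC N) (toC S)) < n →
      HeightBound fun D => {ξ : ℂ | ∃ l : ℂ, Complex.exp l = ξ ∧
        ∃ (C : Matrix (Fin n) (Fin n) ℂ) (P : Matrix (Fin n) (Fin n) ℚ), Polarised S C P ∧
        (∃ M : Matrix (Fin n) (Fin n) ℚ, C * toC M = (2 * (Real.pi : ℂ) * Complex.I) • (toC N * C)) ∧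
        ¬ Generic ((D + 2) ^ c₀) a₀ P (per β h N C ξ l)}) := by
  have hle : ∀ D D' : ℕ, D ≤ D' → (D + 2) ^ c₀ ≤ (D' + 2) ^ c₀ := fun D D' hD =>
    Nat.pow_le_pow_left (by omega) _
  refine ⟨fun C P τ hP hτ hn => height_bound ?_ ?_, fun hn hN0 C P hP hcm => height_bound ?_ ?_,
    fun hSN hn => height_bound ?_ ?_⟩
  · rintro D D' hD ξ ⟨l, h1, h2⟩
    exact ⟨l, h1, fun h3 => h2 (generic_mono (hle D D' hD) h3)⟩
  · obtain ⟨d, hd'⟩ := finrank_fixed hP.det hτ N
    obtain ⟨t₀, ht₀⟩ := points hG hM d a₀ c₀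
    refine ⟨t₀, ?_⟩
    rintro D ξ hξ hht ⟨l, -, hl⟩
    obtain ⟨-, h1⟩ := ht₀ D ξ hξ hht C l hP.det
    exact hl (generic_of hS hd hP hsp h1 le_rfl (Or.inl hd') hn)
  · rintro D D' hD ξ ⟨l, h1, h2⟩
    exact ⟨l, h1, fun h3 => h2 (generic_mono (hle D D' hD) h3)⟩
  · obtain ⟨x, hx, hP', hτ, hone⟩ := cm_point Pool.Agent.T2h17.GP.cmt hS hd hP hcm
    obtain ⟨d, hd'⟩ := finrank_fixed hP'.det hτ N
    rw [if_pos hN0, add_zero] at hd'
    obtain ⟨t₀, ht₀⟩ := points hG hM d a₀ c₀
    refine ⟨t₀, ?_⟩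
    rintro D ξ hξ hht ⟨l, -, hl⟩
    obtain ⟨-, h1⟩ := ht₀ D ξ hξ hht (x • C) l hP'.det
    have h2 := generic_of (ν := n / 2) hS hd hP' hsp h1 le_rfl
      (Or.inr ⟨by omega, Submodule.mem_sup_left (hone d), hd'⟩) (by omega)
    refine hl fun a ha t hA => h2 a ha t ?_
    rw [smul_per]
    exact alg_smul hx hA
  · rintro D D' hD ξ ⟨l, h1, C, P, hC, hM', h2⟩
    exact ⟨l, h1, C, P, hC, hM', fun h3 => h2 (generic_mono (hle D D' hD) h3)⟩
  · obtain ⟨t₀, ht₀⟩ := points hG hM 2 a₀ c₀
    refine ⟨t₀, ?_⟩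
    rintro D ξ hξ hht ⟨l, -, C, P, hP, hlog, hl⟩
    obtain ⟨-, h1⟩ := ht₀ D ξ hξ hht C l hP.det
    have hpos : 0 < Module.finrank ℂ (Similitudes (toC N) (toC S)) := by
      have : NeZero n := ⟨by omega⟩
      have h6 : Nontrivial (Similitudes (toC N) (toC S)) :=
        ⟨⟨⟨1, one_sim _ _⟩, 0, fun h7 => one_ne_zero (congrArg Subtype.val h7)⟩⟩
      exact Module.finrank_pos
    exact hl (generic_of (ν := Module.finrank ℂ (Similitudes (toC N) (toC S)) - 1) hS hd hP hsp h1
      (le_sim hSN ⟨hP.det, hlog, P, hP.form⟩) (Or.inr ⟨by omega, one_sim _ _, by omega⟩) (by omega))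

end Pool.Agent.Results.MP_e573c6_ag.HodgeGenericGrowingDegree
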