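import Mathlib
import Pool.Agent.T2h17.GP.Use
import Pool.Agent.T2h17.GP.All
import Pool.Agent.T2h17.AH.Eng
import Pool.Agent.T2h17.TV.Trd2
import Pool.Agent.T2h17.TV.Nrm

/-!
# Curves in the moduli space of abelian varieties: all points of windows near a CM point are Hodge generic

Let `V` be the variation of the first cohomology of an abelian scheme of relative dimension `g`, `n = 2 g`,
(or any variation of rank `n` with a polarisation of odd weight which comes from geometry) on a curve `X`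
over a number field, `x` a local coordinate at a point `x₀` of `X`, with good reduction of the family at
`x₀` or unipotent local monodromy. The period matrix is `H(x) x^N C`, where the entries of `H` are linear
combinations with algebraic coefficients of G-functions `h₁, …, h_r` with rational coefficients (the
components of the restriction of scalars from the function field of `X` to `ℚ(x)`), `N` is a rational
nilpotent matrix and `C` is the matrix of the periods of the fibre at `x₀` (`N = 0`), or of the limit at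
`x₀`. The points of `X` near `x₀` are given by their coordinate `x = 1 / ξ`. We assume that the monodromy
group contains the full symplectic group (the curve in the moduli space is Hodge generic).

A rational tensor on the direct sum of the fibres over `k` points of `X` is called algebraic if in the
coordinates of de Rham cohomology it is, up to a factor, algebraic over a number field of degree at most
`D`. All Hodge tensors on abelian varieties have this property (Deligne), for a suitable `D`. Products of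
the polarisation tensors of the single fibres are obvious examples.

We prove that in a window `x = 1 / (ξ - G u)`, `1 ≤ u ≤ W`, where `ξ` is algebraic of bounded degree, of
height bounded by a power of `|ξ|` and `|ξ| ≥ (W + 2)^E`, any `k` points have the following property: outside a
set `R` of these points with `(n - 1) |R| ≤ ν` ALL algebraic tensors of degree `a ≤ a₀` on the direct sum of
the fibres are linear combinations of products of polarisation tensors. Here `ν` is `τ` (`τ + 1` for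
`N ≠ 0`), where `τ` is the transcendence degree of the field of the periods `C`; or, uniformly in all
polarised rational structures, the dimension minus one of the Lie algebra of the similitudes which
normalise `N`. If `x₀` is a point with complex multiplication and `g ≥ 2` then `R` is EMPTY: near a CM point
of a Hodge generic curve in the moduli space of abelian varieties over a number field no point of this kind
is in a proper special subvariety, and even any `k` different points of a window form a Hodge generic point of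
the product of `k` moduli spaces: the product of the `k` fibres and of their powers has no Hodge classes of
degree `a ≤ a₀` besides the combinations of products of the polarisations. In particular none of these points
is in the atypical locus.

Proof. By the transversality theorem (`AlgebraicTensors`, projects AH and TV of helper17, on the theorem on
values of G-functions at algebraic points of windows of helper916 and others) the space `M` of the elements
`(Y_1, …, Y_k)` of `𝔰𝔭ᵏ` which preserve the lines of the algebraic tensors has codimension at most `ν` in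
`𝔰𝔭ᵏ`, it is a Lie algebra. A subalgebra of codimension `ν` of the `k`-th power of a simple Lie algebra all
of whose proper subalgebras have codimension at least `m` contains the product of all but `ν / m` factors
(if `2 m ≤ dim`), and the proper subalgebras of `𝔰𝔭_n` have codimension at least `n - 1`. By the first
fundamental theorem for the symplectic group the invariant tensors are generated by the forms. At a CM
point the transcendence degree of the periods is at most `g + 1`, also after the multiplication of `C` with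
a number `λ` which is transcendental over the field of the periods; for such `λ C` the scalars are tangent
to the relations, and the bound is `ν = g < n - 1`.

Parts of the algebra by helper32 (subalgebras of powers), helper78 (stabilisers, simplicity), helper71
(minimal codimension), helper84 (rank one elements, brackets, periods of CM type), helper3 (invariant
tensors).
-/

set_option autoImplicit false

open PowerSeries

namespace Pool.Agent.Results.MP_e573c6_ag.HodgeGenericWindows

/-- an integer polynomial as a power series with rational coefficients -/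
noncomputable def toQ (P : Polynomial ℤ) : PowerSeries ℚ :=
  ((P.map (Int.castRingHom ℚ) : Polynomial ℚ) : PowerSeries ℚ)

/-- the power series `P(u^e)` -/
noncomputable def atPow (e : ℕ) (P : Polynomial ℤ) : PowerSeries ℂ :=
  ((Polynomial.expand ℂ e (P.map (Int.castRingHom ℂ)) : Polynomial ℂ) : PowerSeries ℂ)

/-- the matrices `G_s` over `ℤ[x]` with `T^s y^(s) = G_s y` for all solutions `y` of `T y' = A y` -/
noncomputable def iter {r : ℕ} (T : Polynomial ℤ) (A : Fin r → Fin r → Polynomial ℤ) :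
    ℕ → Fin r → Fin r → Polynomial ℤ
  | 0 => fun i j => if i = j then 1 else 0
  | s + 1 => fun i j => T * Polynomial.derivative (iter T A s i j) + ∑ l, iter T A s i l * A l j -
      (s : Polynomial ℤ) * (Polynomial.derivative T * iter T A s i j)

/-- The system `T y' = A y` has a fundamental matrix of solutions of the form `u^(-M) ∑_n Φ_n(u) (log u)^n`
with `u^e = x` and convergent power series `Φ_n`: the point `0` is an ordinary point or a regular
singularity with rational exponents. -/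
def QuasiUnipotent {r : ℕ} (T : Polynomial ℤ) (A : Fin r → Fin r → Polynomial ℤ) : Prop :=
  ∃ (e M : ℕ) (K : ℝ) (Φ : Matrix (Fin r) (Fin r) (Polynomial (PowerSeries ℂ))), 1 ≤ e ∧ Φ.det ≠ 0 ∧
    (∀ i j n m, ‖coeff m ((Φ i j).coeff n)‖ ≤ K ^ (m + 1)) ∧
    ∀ i j n, atPow e T * (X * PowerSeries.derivative ℂ ((Φ i j).coeff n) +
        ((n : PowerSeries ℂ) + 1) * (Φ i j).coeff (n + 1) - (M : PowerSeries ℂ) * (Φ i j).coeff n) =
      (e : PowerSeries ℂ) * X ^ e * ∑ l, atPow e (A i l) * (Φ l j).coeff n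

/-- `h_1, ..., h_r` are G-functions with rational coefficients which solve the differential system
`T y' = A y`, with the conditions of Siegel and Galochkin, and the system is regular with rational
exponents at `0`. -/
structure GFamily {r : ℕ} (T : Polynomial ℤ) (A : Fin r → Fin r → Polynomial ℤ)
    (h : Fin r → PowerSeries ℚ) : Prop where
  /-- the denominator is not zero -/
  T_ne : T ≠ 0
  /-- the differential equations -/
  ode : ∀ i, toQ T * PowerSeries.derivative ℚ (h i) = ∑ j, toQ (A i j) * h j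
  /-- the coefficients have geometric growth -/
  size : ∃ C : ℝ, ∀ i m, |((coeff m (h i) : ℚ) : ℝ)| ≤ C ^ (m + 1)
  /-- the common denominators of the coefficients have geometric growth -/
  den : ∃ C : ℝ, ∀ m : ℕ, ∃ d : ℕ, 0 < d ∧ (d : ℝ) ≤ C ^ (m + 1) ∧
    ∀ i, ∀ j ≤ m, ∃ a : ℤ, (d : ℚ) * coeff j (h i) = a
  /-- Galochkin's condition: the common denominators of the matrices `G_s / s!` have geometric growth -/
  galochkin : ∃ C : ℝ, ∀ m : ℕ, ∃ d : ℕ, 0 < d ∧ (d : ℝ) ≤ C ^ (m + 1) ∧ ∀ s ≤ m, ∀ i j,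
    ∃ H : Polynomial ℤ, (d : Polynomial ℤ) * iter T A s i j = (s.factorial : Polynomial ℤ) * H
  /-- the local exponents at `0` are rational and the singularity is regular -/
  regular : QuasiUnipotent T A

/-- rational matrices as complex matrices -/
def toC {α γ : Type} (M : Matrix α γ ℚ) : Matrix α γ ℂ := M.map fun x : ℚ => (x : ℂ)

/-- the values of the power series `h_1, ..., h_r` at `z` -/
noncomputable def val {r : ℕ} (h : Fin r → PowerSeries ℚ) (z : ℂ) : Fin r → ℂ :=
  fun i => ∑' k : ℕ, ((coeff k (h i) : ℚ) : ℂ) * z ^ k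

/-- the matrix with the entries `∑ β y`: linear combinations of `y_1, ..., y_r` -/
def comb {r n : ℕ} (β : Fin n × Fin n → Fin r → ℂ) (y : Fin r → ℂ) : Matrix (Fin n) (Fin n) ℂ :=
  Matrix.of fun i j => ∑ s, β (i, j) s * y s

/-- the exponential `exp (s X)` of a nilpotent matrix -/
noncomputable def expN {n : ℕ} (X : Matrix (Fin n) (Fin n) ℂ) (s : ℂ) : Matrix (Fin n) (Fin n) ℂ :=
  ∑ a ∈ Finset.range n, (s ^ a / (a.factorial : ℂ)) • X ^ a

/-- The family: the matrix `H(x)` has the entries `∑ β h(x)` with algebraic `β`, it is invertible near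
`x = 0`, `x ≠ 0`, and the period matrix of the variation is `H(x) x^N C`. The set `𝒩` consists of
directions of one-parameter groups of the monodromy group, every direction with its action `X.1` on the
solutions `h` and its action `X.2` on the cohomology: both are nilpotent, they are compatible with `β`, all
polynomial relations `R(x, h(x)) = 0` over `ℚ[x]` hold near `x = 0` also for the vectors `h(x) g`, where `g`
is a product of matrices `exp (s X.1)`, `X ∈ 𝒩`, and the span of the `X.2` is normalised by the local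
monodromy `exp (2 π i N)` (it is the Lie algebra of the subgroup of the monodromy group which fixes
`log x`). -/
structure Family {r n : ℕ} (β : Fin n × Fin n → Fin r → ℂ) (h : Fin r → PowerSeries ℚ)
    (N : Matrix (Fin n) (Fin n) ℚ)
    (𝒩 : Set (Matrix (Fin r) (Fin r) ℂ × Matrix (Fin n) (Fin n) ℂ)) : Prop where
  alg : ∀ a s, IsAlgebraic ℚ (β a s)
  det : ∃ ρ : ℝ, 0 < ρ ∧ ∀ z : ℂ, z ≠ 0 → ‖z‖ < ρ → (comb β (val h z)).det ≠ 0
  nil : N ^ n = 0
  dir : ∀ X ∈ 𝒩, X.1 ^ r = 0 ∧ X.2 ^ n = 0
  equiv : ∀ X ∈ 𝒩, ∀ y : Fin r → ℂ, comb β (Matrix.vecMul y X.1) = comb β y * X.2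
  normal : ∀ X ∈ 𝒩, ∀ s : ℂ, expN (toC N) s * X.2 * expN (toC N) (-s) ∈
    Submodule.span ℂ (Prod.snd '' 𝒩)
  inv : ∃ ρ : ℝ, 0 < ρ ∧ ∀ R : MvPolynomial (Fin r) (Polynomial ℚ), MvPolynomial.aeval h R = 0 →
    ∀ z : ℂ, ‖z‖ < ρ → ∀ g ∈ Submonoid.closure {g | ∃ X ∈ 𝒩, ∃ s : ℂ, g = expN X.1 s},
      MvPolynomial.eval₂ (Polynomial.aeval z : Polynomial ℚ →ₐ[ℚ] ℂ).toRingHom
        (Matrix.vecMul (val h z) g) R = 0

/-- The period matrix `H(x) x^N C = H(x) exp (N log x) C` at `x = 1 / ξ`, with the value `-l` of `log x`,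
where `exp l = ξ`; the rows belong to a basis of de Rham cohomology, the columns to a rational basis. -/
noncomputable def per {r n : ℕ} (β : Fin n × Fin n → Fin r → ℂ) (h : Fin r → PowerSeries ℚ)
    (N : Matrix (Fin n) (Fin n) ℚ) (C : Matrix (Fin n) (Fin n) ℂ) (ξ l : ℂ) :
    Matrix (Fin n) (Fin n) ℂ := comb β (val h (1 / ξ)) * expN (toC N) (-l) * C

/-- The rational tensor `T` of degree `a` is algebraic in de Rham cohomology up to a factor: its coordinates
with respect to the basis of de Rham cohomology are proportional to elements of a number field of degree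
at most `D`. (All Hodge tensors on abelian varieties and all algebraic classes have this property.) -/
def AlgebraicTensor {ι : Type} [Fintype ι] (D : ℕ) (P : Matrix ι ι ℂ) {a : ℕ} (T : (Fin a → ι) → ℚ) : Prop :=
  ∃ (K : IntermediateField ℚ ℂ) (κ : ℂ), FiniteDimensional ℚ K ∧ Module.finrank ℚ K ≤ D ∧ κ ≠ 0 ∧
    ∀ i : Fin a → ι, ∃ w ∈ K, ∑ i' : Fin a → ι, (∏ s, P (i s) (i' s)) * (T i' : ℂ) = κ * w

/-- The product of polarisation tensors: the indices `1, …, a` are divided into the pairs
`{e (s, 0), e (s, 1)}`, the pair number `s` belongs to the fibre number `c s`, and `P` is the matrix of the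
polarisation tensor of a fibre in the rational coordinates. -/
def pairing {n k a m : ℕ} (P : Matrix (Fin n) (Fin n) ℚ) (e : Fin m × Fin 2 ≃ Fin a) (c : Fin m → Fin k) :
    (Fin a → Fin n × Fin k) → ℚ :=
  fun i => ∏ s, if (i (e (s, 0))).2 = c s ∧ (i (e (s, 1))).2 = c s then
    P (i (e (s, 0))).1 (i (e (s, 1))).1 else 0

/-- Outside a set `R` of fibres with `(n - 1) |R| ≤ ν` all algebraic tensors of degree `a ≤ a₀` on the direct
sum of the `k` fibres with the period matrices `B j` are linear combinations of products of polarisation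
tensors. -/
def Generic {n k : ℕ} (D a₀ : ℕ) (P : Matrix (Fin n) (Fin n) ℚ) (B : Fin k → Matrix (Fin n) (Fin n) ℂ)
    (ν : ℕ) : Prop :=
  ∃ R : Finset (Fin k), R.card * (n - 1) ≤ ν ∧ ∀ a ≤ a₀, ∀ T : (Fin a → Fin n × Fin k) → ℚ,
    (∀ i, (∃ s, (i s).2 ∈ R) → T i = 0) → AlgebraicTensor D (Matrix.blockDiagonal B) T →
    T ∈ Submodule.span ℚ {Q | ∃ (m : ℕ) (e : Fin m × Fin 2 ≃ Fin a) (c : Fin m → Fin k),
      Q = pairing P e c}

/-- In the rational coordinates the polarisation `S` is proportional to the rational form `P`; `C` is the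
base change. -/
structure Polarised {n : ℕ} (S : Matrix (Fin n) (Fin n) ℚ) (C : Matrix (Fin n) (Fin n) ℂ)
    (P : Matrix (Fin n) (Fin n) ℚ) : Prop where
  det : C.det ≠ 0
  form : ∃ κ : ℂ, κ ≠ 0 ∧ C * toC P * C.transpose = κ • toC S

/-- The fibre with the period matrix `C` has complex multiplication: there is a rational endomorphism `M`
with `n` different eigenvalues which is algebraic in the coordinates of de Rham cohomology. -/
def ComplexMultiplication {n : ℕ} (C : Matrix (Fin n) (Fin n) ℂ) : Prop :=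
  ∃ (M : Matrix (Fin n) (Fin n) ℚ) (A : Matrix (Fin n) (Fin n) ℂ), M.charpoly.Separable ∧
    (∀ i j, IsAlgebraic ℚ (A i j)) ∧ C * toC M = A * C

/-- the Lie algebra of the monodromy group in the flat coordinates: the span of `N` and of the directions
in `𝒩` -/
def mon {r n : ℕ} (N : Matrix (Fin n) (Fin n) ℚ)
    (𝒩 : Set (Matrix (Fin r) (Fin r) ℂ × Matrix (Fin n) (Fin n) ℂ)) :
    Submodule ℂ (Matrix (Fin n) (Fin n) ℂ) := Submodule.span ℂ (Prod.snd '' 𝒩 ∪ {toC N})

/-- the Lie algebra of the infinitesimal similitudes of the form `S` which normalise the line of `N` -/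
def Similitudes {n : ℕ} (N S : Matrix (Fin n) (Fin n) ℂ) : Submodule ℂ (Matrix (Fin n) (Fin n) ℂ) where
  carrier := {Z | (∃ μ : ℂ, Z * N - N * Z = μ • N) ∧ ∃ η : ℂ, Z * S + S * Z.transpose = η • S}
  add_mem' := fun hZ hZ' => (Pool.Agent.T2h17.TV.Nrm N S).add_mem hZ hZ'
  zero_mem' := (Pool.Agent.T2h17.TV.Nrm N S).zero_mem
  smul_mem' := fun c _ hZ => (Pool.Agent.T2h17.TV.Nrm N S).smul_mem c hZ

/-- The base change `C` from the flat basis to a rational basis is a polarised rational structure: the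
logarithm `2 π i C⁻¹ N C` of the local monodromy is rational and the form with the matrix `S` in the flat
basis is proportional to a rational form. -/
structure RationalStructure {n : ℕ} (S N : Matrix (Fin n) (Fin n) ℚ) (C : Matrix (Fin n) (Fin n) ℂ) :
    Prop where
  det : C.det ≠ 0
  log : ∃ M : Matrix (Fin n) (Fin n) ℚ, C * toC M = (2 * (Real.pi : ℂ) * Complex.I) • (toC N * C)
  form : ∃ (P : Matrix (Fin n) (Fin n) ℚ) (κ : ℂ), κ ≠ 0 ∧ C * toC P * C.transpose = κ • toC S

/-- the transcendence degree of the field which is generated by the entries of `C` is at most `τ` -/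
def TrdegLe {n : ℕ} (C : Matrix (Fin n) (Fin n) ℂ) (τ : ℕ) : Prop :=
  Algebra.trdeg ℚ (IntermediateField.adjoin ℚ (Set.range fun a : Fin n × Fin n => C a.1 a.2)) ≤ τ

/-- the logarithms of the points `ξ - G u_j` near the logarithm `l` of `ξ` -/
noncomputable def logs {k : ℕ} (G : ℕ) (ξ l : ℂ) (u : Fin k → ℕ) : Fin k → ℂ := fun j =>
  l + Complex.log (1 - ((G * u j : ℕ) : ℂ) / ξ)

/-- `ξ` is a root of a nonzero integral polynomial of degree at most `g` with coefficients of size at
most `|ξ|^A` -/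
def Height (g A : ℕ) (ξ : ℂ) : Prop :=
  ∃ p : Polynomial ℤ, p ≠ 0 ∧ p.natDegree ≤ g ∧ (∀ j, |(p.coeff j : ℝ)| ≤ ‖ξ‖ ^ A) ∧
    Polynomial.aeval ξ p = 0

theorem iter_eq {r : ℕ} (T : Polynomial ℤ) (A : Fin r → Fin r → Polynomial ℤ) (s : ℕ) :
    iter T A s = Pool.Agent.Y120.GH.itm T A s := by
  induction s with
  | zero => rfl
  | succ s ih =>
    funext i j
    rw [iter, Pool.Agent.Y120.GH.itm, ih]

theorem qu_eq {r : ℕ} {T : Polynomial ℤ} {A : Fin r → Fin r → Polynomial ℤ} (h : QuasiUnipotent T A) :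
    Pool.Agent.Y120.GH.QU0 T A := by
  obtain ⟨e, M, K, Φ, he, hdet, hc, heq⟩ := h
  have he0 : e ≠ 0 := by omega
  refine ⟨e, he0, M, K, Φ, hc, fun i j n => ?_, hdet⟩
  have h1 := heq i j n
  simp only [atPow] at h1
  rw [Pool.Agent.Y120.GH.expand_poly he0]
  simp only [Pool.Agent.Y120.GH.expand_poly he0]
  exact h1

theorem gfam_eq {r : ℕ} {T : Polynomial ℤ} {A : Fin r → Fin r → Polynomial ℤ}
    {h : Fin r → PowerSeries ℚ} (hG : GFamily T A h) : Pool.Agent.Y916.Af.GFam T A h where
  hT := hG.T_ne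
  hode := hG.ode
  hsize := hG.size
  hden := hG.den
  hgal := by
    obtain ⟨C, hC⟩ := hG.galochkin
    refine ⟨C, fun m => ?_⟩
    obtain ⟨d, h1, h2, h3⟩ := hC m
    refine ⟨d, h1, h2, fun s hs i' j' => ?_⟩
    rw [← iter_eq]
    exact h3 s hs i' j'
  hqu := qu_eq hG.regular

theorem height_eq (g A : ℕ) (ξ : ℂ) : Height g A ξ ↔ Pool.Agent.Y916.Al.Ht g A ξ := Iff.rfl

/-- the bound for a fixed rational structure -/
theorem finrank_fixed {n : ℕ} {C : Matrix (Fin n) (Fin n) ℂ} (hC : C.det ≠ 0) {τ : ℕ}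
    (hτ : TrdegLe C τ) (N : Matrix (Fin n) (Fin n) ℚ) : ∃ d : ℕ,
    Module.finrank ℂ (Pool.Agent.T2h17.TV.Tg d C ⊔ Submodule.span ℂ {toC N} : Submodule ℂ _) ≤
      τ + if N = 0 then 0 else 1 := by
  obtain ⟨d, hd⟩ := Pool.Agent.T2h17.TV.finrank_Tg hC
  refine ⟨d, ?_⟩
  have h1 : Module.finrank ℂ (Pool.Agent.T2h17.TV.Tg d C) ≤ τ := by
    exact_mod_cast hd.trans hτ
  split_ifs with hN
  · subst hN
    have h2 : toC (0 : Matrix (Fin n) (Fin n) ℚ) = 0 := by
      ext i j
      simp [toC]
    rw [h2, Submodule.span_zero_singleton, sup_bot_eq]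
    exact h1
  · refine (Submodule.finrank_add_le_finrank_add_finrank _ _).trans (Nat.add_le_add h1 ?_)
    refine (finrank_span_le_card _).trans ?_
    simp

/-- the similitudes -/
theorem le_sim {n : ℕ} {S N : Matrix (Fin n) (Fin n) ℚ} {C : Matrix (Fin n) (Fin n) ℂ}
    (hN : toC N * toC S + toC S * (toC N).transpose = 0) (hC : RationalStructure S N C) :
    Pool.Agent.T2h17.TV.Tg 2 C ⊔ Submodule.span ℂ {toC N} ≤ Similitudes (toC N) (toC S) := by
  obtain ⟨hdet, ⟨M, hM⟩, P, κ, hκ, hP⟩ := hC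
  refine sup_le ?_ ?_
  · intro Z hZ
    exact Pool.Agent.T2h17.TV.Tg_le_Nrm hdet Complex.two_pi_I_ne_zero hM hκ hP hZ
  · rw [Submodule.span_le, Set.singleton_subset_iff]
    exact ⟨⟨0, by rw [sub_self, zero_smul]⟩, 0, by rw [hN, zero_smul]⟩

theorem one_sim {n : ℕ} (N S : Matrix (Fin n) (Fin n) ℂ) :
    (1 : Matrix (Fin n) (Fin n) ℂ) ∈ Similitudes N S := by
  refine ⟨⟨0, by rw [Matrix.one_mul, Matrix.mul_one, sub_self, zero_smul]⟩, 2, ?_⟩
  rw [Matrix.one_mul, Matrix.transpose_one, Matrix.mul_one, two_smul]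

/-- the transversality theorem in windows -/
theorem windows {n r : ℕ} {T : Polynomial ℤ} {A : Fin r → Fin r → Polynomial ℤ}
    {h : Fin r → PowerSeries ℚ} (hG : GFamily T A h) {β : Fin n × Fin n → Fin r → ℂ}
    {N : Matrix (Fin n) (Fin n) ℚ}
    {𝒩 : Set (Matrix (Fin r) (Fin r) ℂ × Matrix (Fin n) (Fin n) ℂ)} (hM : Family β h N 𝒩) :
    ∃ G0 : ℕ, 1 ≤ G0 ∧ ∀ G : ℕ, G0 ≤ G → ∀ k g A₀ d D a₀ : ℕ, ∃ E : ℕ, ∀ (W : ℕ) (ξ l : ℂ),
      ((W : ℝ) + 2) ^ E ≤ ‖ξ‖ → Height g A₀ ξ → ∀ C : Matrix (Fin n) (Fin n) ℂ, C.det ≠ 0 →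
      ∀ u : Fin k → ℕ, Function.Injective u → (∀ j, 1 ≤ u j ∧ u j ≤ W) →
      (∀ j, (comb β (val h (1 / (ξ - ((G * u j : ℕ) : ℂ))))).det ≠ 0) ∧
      Pool.Agent.T2h17.AH.Trans3 β N 𝒩 d a₀ D C
        (fun j => val h (1 / (ξ - ((G * u j : ℕ) : ℂ)))) l (Pool.Agent.T2h17.TV.lw G ξ u) := by
  obtain ⟨ρ₁, hρ₁, hinv⟩ := hM.inv
  obtain ⟨ρ₂, hρ₂, hdet⟩ := hM.det
  set ρ' : ℝ := min ρ₁ ρ₂ with hρ'
  have hρ'0 : 0 < ρ' := lt_min hρ₁ hρ₂
  have hρ'2 : ρ' ≤ ρ₁ := min_le_left _ _
  have hρ'3 : ρ' ≤ ρ₂ := min_le_right _ _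
  have hcl : Submonoid.closure {g | ∃ X ∈ 𝒩, ∃ s : ℂ, g = expN X.1 s} =
      Pool.Agent.T2h17.HW.Grp (Prod.fst '' 𝒩) := by
    unfold Pool.Agent.T2h17.HW.Grp
    congr 1
    ext g
    constructor
    · rintro ⟨X, hX, s, rfl⟩
      exact ⟨X.1, ⟨X, hX, rfl⟩, s, rfl⟩
    · rintro ⟨_, ⟨X, hX, rfl⟩, s, rfl⟩
      exact ⟨X, hX, s, rfl⟩
  have hinv' : Pool.Agent.T2h17.AH.InvV h (Prod.fst '' 𝒩) ρ' := fun R hR z hz g hg =>
    hinv R hR z (hz.trans_le hρ'2) g (by rw [hcl]; exact hg)
  have hnr := Pool.Agent.Y916.Af.nrh_of_gfam (gfam_eq hG)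
  obtain ⟨G0, hG0, h1⟩ := Pool.Agent.T2h17.AH.win_relv hnr hρ'0 hinv'
  refine ⟨G0, hG0, fun G hGG k g A₀ d D a₀ => ?_⟩
  obtain ⟨e, he⟩ := Pool.Agent.T2h17.AH.trans3 k hM.alg hM.nil (fun X hX => (hM.dir X hX).1) hM.equiv
    (by
      rintro _ ⟨X, hX, rfl⟩ s
      exact hM.normal X hX s) d a₀ D
  obtain ⟨E, hE⟩ := h1 G hGG k g A₀ e
  refine ⟨E, fun W ξ l hξ hht C hC u hu hub => ?_⟩
  obtain ⟨hnear, h2⟩ := hE W ξ hξ
  have h3 : ∀ j, (comb β (val h (1 / (ξ - ((G * u j : ℕ) : ℂ))))).det ≠ 0 := fun j =>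
    hdet _ (one_div_ne_zero (hnear (u j) (hub j).2).2) ((hnear (u j) (hub j).2).1.trans_le hρ'3)
  exact ⟨h3, he C _ l _ hC h3 (h2 hht u hu hub)⟩

/-- the period matrices of a multiple -/
theorem smul_per {n r k : ℕ} {β : Fin n × Fin n → Fin r → ℂ} {N : Matrix (Fin n) (Fin n) ℚ}
    {C : Matrix (Fin n) (Fin n) ℂ} (v : Fin k → Fin r → ℂ) (l : Fin k → ℂ) (x : ℂ) :
    (Matrix.blockDiagonal fun j => Pool.Agent.T2h17.AH.bt β (v j) *
      Pool.Agent.T2h17.HW.En (Pool.Agent.T2h17.HW.tc N) (-(l j)) * (x • C)) =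
    x • Matrix.blockDiagonal fun j => Pool.Agent.T2h17.AH.bt β (v j) *
      Pool.Agent.T2h17.HW.En (Pool.Agent.T2h17.HW.tc N) (-(l j)) * C := by
  rw [← Matrix.blockDiagonal_smul]
  congr 1
  funext j
  rw [Matrix.mul_smul]
  rfl

/-- **near a CM point** -/
theorem cm_point {n : ℕ} (hcmt : Pool.Agent.T2h17.GP.S_CMT) {S P : Matrix (Fin n) (Fin n) ℚ}
    {C : Matrix (Fin n) (Fin n) ℂ} (hS : S.transpose = -S) (hd : S.det ≠ 0) (hP : Polarised S C P)
    (hcm : ComplexMultiplication C) : ∃ x : ℂ, x ≠ 0 ∧ Polarised S (x • C) P ∧ TrdegLe (x • C) (n / 2 + 1) ∧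
      ∀ d, (1 : Matrix (Fin n) (Fin n) ℂ) ∈ Pool.Agent.T2h17.TV.Tg d (x • C) := by
  obtain ⟨x, hx, h1⟩ := Pool.Agent.T2h17.GP.scale C
  obtain ⟨hdet, κ, hκ, hf⟩ := hP
  obtain ⟨M, A, hM, hA, hCM⟩ := hcm
  have hdet' : (x • C).det ≠ 0 := by
    rw [Matrix.det_smul]
    exact mul_ne_zero (pow_ne_zero _ hx) hdet
  have hκ' : x * (x * κ) ≠ 0 := mul_ne_zero hx (mul_ne_zero hx hκ)
  have hf' : (x • C) * toC P * (x • C).transpose = (x * (x * κ)) • toC S := by
    rw [Matrix.transpose_smul, Matrix.smul_mul, Matrix.smul_mul, Matrix.mul_smul, hf, smul_smul, smul_smul,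
      mul_assoc]
  refine ⟨x, hx, ⟨hdet', _, hκ', hf'⟩, ?_, h1⟩
  exact hcmt n S P M A (x • C) _ hS hd hdet' hκ' hf' hA (by
    have h2 : x • C * toC M = A * (x • C) := by
      rw [Matrix.smul_mul, hCM, Matrix.mul_smul]
    exact h2) hM

/-- Let `h_1, …, h_r` be G-functions with rational coefficients, `H = ∑ β h` with algebraic `β`, let `N` be
the logarithm of the local monodromy and `𝒩` the directions of the one-parameter subgroups of the monodromy
group, and suppose that the Lie algebra of the monodromy group contains the symplectic Lie algebra of the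
nondegenerate form `S`. Let `D` and `a₀` be bounds for the degrees of number fields and tensors. Consider
windows, with a sufficiently large `G`: all algebraic `ξ` of degree `≤ g` and height `≤ |ξ|^A₀` with
`(W + 2)^E ≤ |ξ|`, all different `u_1, …, u_k` in `{1, …, W}` and the fibres at the points
`x = 1 / (ξ - G u_j)`.
(1) For a fixed polarised `C` with transcendence degree at most `τ` outside a set `R` of fibres with
`(n - 1) |R| ≤ τ + 1`, `(n - 1) |R| ≤ τ` if `N = 0`, all algebraic tensors are combinations of products of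
polarisations.
(2) If `N = 0`, `n ≥ 4` and `C` has complex multiplication, then `R` is empty.
(3) Uniformly in all polarised rational structures `C` with rational `2 π i C⁻¹ N C` the same is true with
the dimension, minus one, of the Lie algebra of the similitudes which normalise `N`. -/
theorem result {n r : ℕ} (T : Polynomial ℤ) (A : Fin r → Fin r → Polynomial ℤ)
    (h : Fin r → PowerSeries ℚ) (hG : GFamily T A h) (β : Fin n × Fin n → Fin r → ℂ)
    (N : Matrix (Fin n) (Fin n) ℚ)
    (𝒩 : Set (Matrix (Fin r) (Fin r) ℂ × Matrix (Fin n) (Fin n) ℂ)) (hM : Family β h N 𝒩)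
    (S : Matrix (Fin n) (Fin n) ℚ) (hS : S.transpose = -S) (hd : S.det ≠ 0)
    (hsp : ∀ X : Matrix (Fin n) (Fin n) ℂ, X * toC S + toC S * X.transpose = 0 → X ∈ mon N 𝒩)
    (D a₀ : ℕ) :
    ∃ G0 : ℕ, ∀ G : ℕ, G0 ≤ G → ∀ k g A₀ : ℕ,
      (∀ (C : Matrix (Fin n) (Fin n) ℂ) (P : Matrix (Fin n) (Fin n) ℚ) (τ : ℕ), Polarised S C P →
        TrdegLe C τ → ∃ E : ℕ, ∀ (W : ℕ) (ξ l : ℂ), ((W : ℝ) + 2) ^ E ≤ ‖ξ‖ → Height g A₀ ξ →
        Complex.exp l = ξ → ∀ u : Fin k → ℕ, Function.Injective u → (∀ j, 1 ≤ u j ∧ u j ≤ W) →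
        Generic D a₀ P (fun j => per β h N C (ξ - ((G * u j : ℕ) : ℂ)) (logs G ξ l u j))
          (τ + if N = 0 then 0 else 1)) ∧
      (4 ≤ n → N = 0 → ∀ (C : Matrix (Fin n) (Fin n) ℂ) (P : Matrix (Fin n) (Fin n) ℚ),
        Polarised S C P → ComplexMultiplication C →
        ∃ E : ℕ, ∀ (W : ℕ) (ξ l : ℂ), ((W : ℝ) + 2) ^ E ≤ ‖ξ‖ → Height g A₀ ξ →
        Complex.exp l = ξ → ∀ u : Fin k → ℕ, Function.Injective u → (∀ j, 1 ≤ u j ∧ u j ≤ W) →
        Generic D a₀ P (fun j => per β h N C (ξ - ((G * u j : ℕ) : ℂ)) (logs G ξ l u j)) 0) ∧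
      (1 ≤ n → toC N * toC S + toC S * (toC N).transpose = 0 →
        ∃ E : ℕ, ∀ (W : ℕ) (ξ l : ℂ), ((W : ℝ) + 2) ^ E ≤ ‖ξ‖ → Height g A₀ ξ →
        Complex.exp l = ξ → ∀ (C : Matrix (Fin n) (Fin n) ℂ) (P : Matrix (Fin n) (Fin n) ℚ),
        Polarised S C P →
        (∃ M : Matrix (Fin n) (Fin n) ℚ, C * toC M = (2 * (Real.pi : ℂ) * Complex.I) • (toC N * C)) →
        ∀ u : Fin k → ℕ, Function.Injective u → (∀ j, 1 ≤ u j ∧ u j ≤ W) →
        Generic D a₀ P (fun j => per β h N C (ξ - ((G * u j : ℕ) : ℂ)) (logs G ξ l u j))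
          (Module.finrank ℂ (Similitudes (toC N) (toC S)) - 1)) := by
  have H := Pool.Agent.T2h17.GP.parts
  obtain ⟨G0, hG0, hwin⟩ := windows hG hM
  refine ⟨G0, fun G hGG k g A₀ => ⟨?_, ?_, ?_⟩⟩
  · intro C P τ hP hτ
    obtain ⟨d, hd'⟩ := finrank_fixed hP.det hτ N
    obtain ⟨E, hE⟩ := hwin G hGG k g A₀ d D a₀
    refine ⟨E, fun W ξ l hξ hht _ u hu hub => ?_⟩
    obtain ⟨-, h1⟩ := hE W ξ l hξ hht C hP.det u hu hub
    obtain ⟨κ, hκ, hf⟩ := hP.form
    exact Pool.Agent.T2h17.GP.use3 H hS hd hP.det hκ hf hsp h1 le_rfl (Or.inl hd')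
  · intro hn hN0 C P hP hcm
    obtain ⟨x, hx, hP', hτ, hone⟩ := cm_point Pool.Agent.T2h17.GP.cmt hS hd hP hcm
    obtain ⟨d, hd'⟩ := finrank_fixed hP'.det hτ N
    obtain ⟨E, hE⟩ := hwin G hGG k g A₀ d D a₀
    refine ⟨E, fun W ξ l hξ hht _ u hu hub => ?_⟩
    obtain ⟨-, h1⟩ := hE W ξ l hξ hht (x • C) hP'.det u hu hub
    obtain ⟨κ, hκ, hf⟩ := hP'.form
    rw [if_pos hN0, add_zero] at hd'
    obtain ⟨R, hR, h2⟩ := Pool.Agent.T2h17.GP.use3 (ν := n / 2) H hS hd hP'.det hκ hf hsp h1 le_rfl
      (Or.inr ⟨by omega, Submodule.mem_sup_left (hone d), hd'⟩)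
    have hR0 : R.card = 0 := by
      by_contra h0
      have h3 : 1 * (n - 1) ≤ R.card * (n - 1) := Nat.mul_le_mul_right _ (Nat.one_le_iff_ne_zero.2 h0)
      omega
    refine ⟨R, by rw [hR0, zero_mul], fun a ha t ht hA => h2 a ha t ht ?_⟩
    rw [smul_per]
    exact Pool.Agent.T2h17.GP.at_smul hx hA
  · intro hn hSN
    obtain ⟨E, hE⟩ := hwin G hGG k g A₀ 2 D a₀
    refine ⟨E, fun W ξ l hξ hht _ C P hP hlog u hu hub => ?_⟩
    obtain ⟨-, h1⟩ := hE W ξ l hξ hht C hP.det u hu hub
    obtain ⟨κ, hκ, hf⟩ := hP.form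
    exact Pool.Agent.T2h17.GP.use3 H hS hd hP.det hκ hf hsp h1
      (le_sim hSN ⟨hP.det, hlog, P, κ, hκ, hf⟩) (Or.inr ⟨hn, one_sim _ _, by omega⟩)

end Pool.Agent.Results.MP_e573c6_ag.HodgeGenericWindows
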